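import Pool.Agent.H724.DL.Stm

set_option autoImplicit false

namespace Pool.Agent.H106.DLE2

open Pool.Agent.H724.DL

variable {Γ W : Type}

theorem pre_succ {α : Type} (X : ℕ → α) (n : ℕ) : pre X (n + 1) = pre X n ++ [X n] := by
  unfold pre
  rw [List.range_succ, List.map_append]
  rfl

theorem pre_length {α : Type} (X : ℕ → α) (n : ℕ) : (pre X n).length = n := by
  simp [pre]

/-- removing the last letter -/
theorem pre_concat {α : Type} {X : ℕ → α} {n : ℕ} {u : List α} {a : α}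
    (h : pre X n = u ++ [a]) : ∃ n', n = n' + 1 ∧ u = pre X n' ∧ a = X n' := by
  cases n with
  | zero => simp [pre] at h
  | succ n' =>
    rw [pre_succ] at h
    have h1 := List.append_inj' h rfl
    exact ⟨n', rfl, h1.1.symm, by simpa using h1.2.symm⟩

theorem sh_single {α : Type} {a : α} {u v : List α} (h : Sh [a] u v) :
    (u = [a] ∧ v = []) ∨ (u = [] ∧ v = [a]) := by
  cases h with
  | left _ h =>
    obtain ⟨rfl, rfl⟩ := h.nil_iff rfl
    exact Or.inl ⟨rfl, rfl⟩
  | right _ h =>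
    obtain ⟨rfl, rfl⟩ := h.nil_iff rfl
    exact Or.inr ⟨rfl, rfl⟩

/-- the invariant -/
def InvE (R : RS Γ W) (k : ℕ) (X Y : ℕ → Pay Γ) (n m : ℕ)
    (s : Option (Core Γ W × Fin (k + 2))) : Prop :=
  ∃ (c : Core Γ W) (i : Fin (k + 2)), s = some (c, i) ∧
    (c.lx = if n = 0 then none else some (X (n - 1)).ph) ∧
    (c.ly = if m = 0 then none else some (Y (m - 1)).ph) ∧
    ∃ i' j' t, drun R k X Y i' j' t = some (c.d, i) ∧ j' + t = m ∧
      ((c.pend = none ∧ i' + t = n) ∨ (0 < n ∧ c.pend = some (X (n - 1)) ∧ i' + t = n - 1))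

theorem phok_of {X : ℕ → Pay Γ} (h : ∀ i, (X (i + 1)).ph = (X i).ph + 1) (n : ℕ)
    {o : Option (ZMod 5)} (ho : o = if n = 0 then none else some (X (n - 1)).ph) :
    phok o (X n) := by
  intro p hp
  rw [ho] at hp
  cases n with
  | zero => simp at hp
  | succ n =>
    simp only [Nat.add_eq_zero_iff, one_ne_zero, and_false, if_false, Nat.add_sub_cancel,
      Option.some.injEq] at hp
    rw [h n, hp]

theorem stepX {R : RS Γ W} {k : ℕ} {X Y : ℕ → Pay Γ} (hI : Imm R k X Y) {n m : ℕ}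
    {s : Option (Core Γ W × Fin (k + 2))} (h : InvE R k X Y n m s) :
    InvE R k X Y (n + 1) m (fstep R k s (false, X n)) := by
  obtain ⟨c, i, rfl, hlx, hly, i', j', t, hd, hj, hp⟩ := h
  have h1 : lok (X n) ∧ phok c.lx (X n) := ⟨hI.lx n, phok_of hI.phx n hlx⟩
  rcases hp with ⟨hp, hi⟩ | ⟨hn, hp, hi⟩
  · refine ⟨⟨some (X n).ph, c.ly, some (X n), c.d⟩, i, ?_, ?_, hly, i', j', t, hd, hj,
      Or.inr ⟨Nat.succ_pos n, ?_, ?_⟩⟩
    · simp only [fstep, cstep, Option.bind_some, if_pos h1, hp, Option.map_some, act]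
    · simp
    · simp
    · omega
  · refine ⟨⟨some (X n).ph, c.ly, some (X n), .idle⟩, 0, ?_, ?_, hly, n, m, 0, ?_, rfl,
      Or.inr ⟨Nat.succ_pos n, ?_, ?_⟩⟩
    · simp only [fstep, cstep, Option.bind_some, if_pos h1, hp, Option.map_some, act]
    · simp
    · rfl
    · simp
    · omega

theorem stepY {R : RS Γ W} {k : ℕ} {X Y : ℕ → Pay Γ} (hI : Imm R k X Y) {n m : ℕ}
    {s : Option (Core Γ W × Fin (k + 2))} (h : InvE R k X Y n m s) :
    InvE R k X Y n (m + 1) (fstep R k s (true, Y m)) := by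
  obtain ⟨c, i, rfl, hlx, hly, i', j', t, hd, hj, hp⟩ := h
  have h1 : lok (Y m) ∧ phok c.ly (Y m) := ⟨hI.ly m, phok_of hI.phy m hly⟩
  rcases hp with ⟨hp, hi⟩ | ⟨hn, hp, hi⟩
  · refine ⟨⟨c.lx, some (Y m).ph, none, .idle⟩, 0, ?_, hlx, ?_, n, m + 1, 0, ?_, rfl,
      Or.inl ⟨rfl, rfl⟩⟩
    · simp only [fstep, cstep, Option.bind_some, if_pos h1, hp, Option.map_some, act]
    · simp
    · rfl
  · have h2 := hI.nf i' j' (t + 1)
    have h3 : drun R k X Y i' j' (t + 1) = dn R k (some (c.d, i)) (X (n - 1)) (Y m) := by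
      show dn R k (drun R k X Y i' j' t) (X (i' + t)) (Y (j' + t)) = _
      rw [hd, hi, hj]
    have h4 : dn R k (some (c.d, i)) (X (n - 1)) (Y m) =
        (dstep R (decide (i.val = k)) c.d (X (n - 1)) (Y m)).map
          fun r => (r.1, act k r.2 i) := rfl
    cases h5 : dstep R (decide (i.val = k)) c.d (X (n - 1)) (Y m) with
    | none =>
      exfalso
      apply h2
      rw [h3, h4, h5]
      rfl
    | some r =>
      refine ⟨⟨c.lx, some (Y m).ph, none, r.1⟩, act k r.2 i, ?_, hlx, ?_, i', j', t + 1, ?_,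
        by omega, Or.inl ⟨rfl, by omega⟩⟩
      · simp only [fstep, cstep, Option.bind_some, if_pos h1, hp, Option.map_some, h5]
      · simp
      · rw [h3, h4, h5]
        rfl

theorem inv {R : RS Γ W} {k : ℕ} {X Y : ℕ → Pay Γ} (hI : Imm R k X Y)
    (w : List (Bool × Pay Γ)) : ∀ n m,
    Sh w (pre (fun i => (false, X i)) n) (pre (fun j => (true, Y j)) m) →
    InvE R k X Y n m (w.foldl (fstep R k) (some (core0, 0))) := by
  induction w using List.reverseRecOn with
  | nil =>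
    intro n m h
    obtain ⟨h1, h2⟩ := h.nil_iff rfl
    have h3 := congrArg List.length h1
    have h4 := congrArg List.length h2
    rw [pre_length, List.length_nil] at h3 h4
    subst h3 h4
    exact ⟨core0, 0, rfl, by simp [core0], by simp [core0], 0, 0, 0, rfl, rfl,
      Or.inl ⟨rfl, rfl⟩⟩
  | append_singleton w a ih =>
    intro n m h
    obtain ⟨u1, u2, v1, v2, hu, hv, h1, h2⟩ := h.split w [a] rfl
    rw [List.foldl_append]
    rcases sh_single h2 with ⟨rfl, rfl⟩ | ⟨rfl, rfl⟩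
    · obtain ⟨n', rfl, rfl, rfl⟩ := pre_concat hu
      rw [List.append_nil] at hv
      subst hv
      exact stepX hI (ih n' m h1)
    · obtain ⟨m', rfl, rfl, rfl⟩ := pre_concat hv
      rw [List.append_nil] at hu
      subst hu
      exact stepY hI (ih n m' h1)

/-- **DL-E2.** -/
theorem e2 : S_E2 := by
  intro Γ W R k X Y hI n m w hw
  obtain ⟨c, i, h, -⟩ := inv hI w n m hw
  rw [h]
  exact Option.some_ne_none _

end Pool.Agent.H106.DLE2
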