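import Pool.Agent.H252.EL.Iface

/-!
# The lower bound: the witnesses
-/

set_option autoImplicit false

noncomputable section

namespace Pool.Agent.H106.ELLOW

open Filter Topology
open scoped ENNReal NNReal Matrix.Norms.L2Operator ComplexOrder
open Pool.Agent.TH249 (Prj K0 Eqv IsPrj)
open Pool.Agent.H188R3 (IsLim)
open Pool.Agent.H252.EL

/-- the sizes tend to infinity -/
lemma le_n (D : Sys) (hD : D.Good) (i : ℕ) : i + 1 ≤ D.n i := by
  induction i with
  | zero => exact le_of_eq rfl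
  | succ i ih =>
    rw [D.n_succ]
    have h1 := hD.lt i
    have h2 := hD.m_pos i
    have h4 := hD.c_pos i
    have h3 : (i + 1) * 3 ≤ D.n i * D.S i := Nat.mul_le_mul ih (by omega)
    omega

/-- the indicator functions are projections -/
lemma one_prj (D : Sys) (i : ℕ) (b : Bool) : IsStarProjection (D.one i b) := by
  have hz : ∀ z : D.Z i, D.one i b z = if z.1 = b then 1 else 0 := fun z => rfl
  refine ⟨?_, ?_⟩
  · show D.one i b * D.one i b = D.one i b
    ext1 z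
    rw [ContinuousMap.mul_apply, hz]
    split_ifs <;> simp
  · show star (D.one i b) = D.one i b
    ext1 z
    rw [ContinuousMap.star_apply, hz]
    split_ifs <;> simp

lemma map_prj {A B : Type} [CStarAlgebra A] [CStarAlgebra B] (f : A →⋆ₐ[ℂ] B) {p : A}
    (hp : IsStarProjection p) : IsStarProjection (f p) := by
  refine ⟨?_, ?_⟩
  · show f p * f p = f p
    rw [← map_mul]
    exact congrArg f hp.1
  · show star (f p) = f p
    rw [← map_star]
    exact congrArg f hp.2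

/-- entries of `1 × 1` matrices -/
lemma mul11 {A : Type} [CStarAlgebra A] (P Q : Matrix (Fin 1) (Fin 1) A) :
    (P * Q) 0 0 = P 0 0 * Q 0 0 := by
  rw [Matrix.mul_apply, Fin.sum_univ_one]

lemma star11 {A : Type} [CStarAlgebra A] (P : Matrix (Fin 1) (Fin 1) A) :
    (star P) 0 0 = star (P 0 0) := rfl

lemma prj11 {A : Type} [CStarAlgebra A] {P : Matrix (Fin 1) (Fin 1) A} (hP : IsPrj P) :
    IsStarProjection (P 0 0) := by
  obtain ⟨h1, h2⟩ := hP
  refine ⟨?_, ?_⟩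
  · show P 0 0 * P 0 0 = P 0 0
    rw [← mul11, h2]
  · show star (P 0 0) = P 0 0
    rw [← star11]
    show (P.conjTranspose) 0 0 = P 0 0
    rw [h1]

lemma cuntz11 {L : Type} [CStarAlgebra L] {P Q : Matrix (Fin 1) (Fin 1) L}
    (h : CLE (P 0 0) (Q 0 0)) : CuntzLE P Q := by
  intro ε hε
  obtain ⟨v, hv⟩ := h ε hε
  refine ⟨Matrix.of fun _ _ => v, fun i k => ?_⟩
  rw [Subsingleton.elim i 0, Subsingleton.elim k 0, Matrix.sub_apply, mul11, mul11, star11,
    Matrix.of_apply]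
  exact hv

lemma trM11 {L : Type} [CStarAlgebra L] (τ : WeakDual ℂ L) (P : Matrix (Fin 1) (Fin 1) L) :
    trM τ P = τ (P 0 0) := by
  unfold trM
  rw [Fin.sum_univ_one]

/-- the injection -/
def inj (k n : ℕ) (h : 2 * k ≤ n) : Fin k × Fin 2 → Fin 1 × Fin n := fun p =>
  (0, Fin.castLE ((mul_comm k 2).le.trans h) (finProdFinEquiv p))

lemma inj_inj (k n : ℕ) (h : 2 * k ≤ n) : Function.Injective (inj k n h) := by
  intro p q hpq
  have h1 : (inj k n h p).2 = (inj k n h q).2 := by rw [hpq]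
  have h2 : finProdFinEquiv p = finProdFinEquiv q :=
    Fin.castLE_injective ((mul_comm k 2).le.trans h) h1
  exact finProdFinEquiv.injective h2

/-- the arithmetic of the tail products -/
lemma tail_ineq {n k : ℕ} {δ : ℝ} {PS PM : ℕ} (hδ : 0 < δ) (hδ8 : δ ≤ 1 / 8) (hn : 0 < n)
    (hPS : 0 < PS) (hk : δ * n / 2 ≤ k) (h : (1 - δ / 4) * (PS : ℝ) ≤ PM) :
    1 * n * PS < (k + 1 * n) * PM := by
  have hnr : (0 : ℝ) < n := Nat.cast_pos.2 hn
  have hPr : (0 : ℝ) < PS := Nat.cast_pos.2 hPS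
  have key : (1 * n * PS : ℝ) < (k + 1 * n) * PM := by
    have h1 : (k + 1 * n : ℝ) * ((1 - δ / 4) * PS) ≤ (k + 1 * n) * PM :=
      mul_le_mul_of_nonneg_left h (by positivity)
    have h2 : (δ * n / 2 + 1 * n) * ((1 - δ / 4) * PS) ≤ (k + 1 * n) * ((1 - δ / 4) * PS) := by
      refine mul_le_mul_of_nonneg_right (by linarith) ?_
      exact mul_nonneg (by linarith) hPr.le
    have h3 : (1 * n * PS : ℝ) < (δ * n / 2 + 1 * n) * ((1 - δ / 4) * PS) := by
      have h4 : (δ * n / 2 + 1 * n) * ((1 - δ / 4) * PS) - 1 * n * PS =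
          (n * PS) * (δ * (1 / 4 - δ / 8)) := by ring
      have h5 : 0 < (n * PS : ℝ) * (δ * (1 / 4 - δ / 8)) :=
        mul_pos (mul_pos hnr hPr) (mul_pos hδ (by linarith))
      linarith
    linarith
  exact_mod_cast key

theorem s_LOW : S_LOW := by
  intro hMASS hPATCH hBU hEMB hELT hCORE hBLD hPRJ D hD L _ j hL s s'' hss hs0 hdim hev htail b₀
  -- the parameter
  obtain ⟨δ, hδ, hδ8, hδs⟩ : ∃ δ : ℝ, 0 < δ ∧ δ ≤ 1 / 8 ∧ s + 2 * δ < s'' := by
    refine ⟨min (1 / 8) ((s'' - s) / 4), ?_, min_le_left _ _, ?_⟩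
    · exact lt_min (by norm_num) (by linarith)
    · have := min_le_right (1 / 8) ((s'' - s) / 4)
      linarith
  have hnl : ∀ᶠ i in atTop, 3 < (D.n i : ℝ) * δ := by
    obtain ⟨N, hN⟩ := exists_nat_gt (3 / δ)
    filter_upwards [eventually_ge_atTop N] with i hi
    have h1 : (N : ℝ) ≤ D.n i := by
      have := le_n D hD.toGood i
      exact_mod_cast (by omega : N ≤ D.n i)
    rw [div_lt_iff₀ hδ] at hN
    exact hN.trans_le (mul_le_mul_of_nonneg_right h1 hδ.le)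
  obtain ⟨i, h1, h2, h3⟩ := (hev.and ((htail (δ / 4) (by positivity)).and hnl)).exists
  have hn1 : 1 ≤ D.n i := by
    have := le_n D hD.toGood i
    omega
  have hnr : (0 : ℝ) < D.n i := Nat.cast_pos.2 hn1
  -- the numbers
  obtain ⟨hd1, hd2, hd3⟩ := hdim i
  obtain ⟨k₂, hk₂⟩ : ∃ k₂, k₂ = (D.d i false - 1) / 2 := ⟨_, rfl⟩
  have hk2a : 2 * k₂ + 1 ≤ D.d i false := by omega
  have hk2b : D.d i false ≤ 2 * k₂ + 2 := by omega
  have hk2c : 2 * k₂ + 1 ≤ D.d i b₀ := by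
    cases b₀
    · exact hk2a
    · exact hk2a.trans hd1
  have hk2d : 2 * k₂ ≤ D.n i := by omega
  have hk2e : s'' * D.n i - 1 ≤ (k₂ : ℝ) := by
    have h4 : (D.d i false : ℝ) ≤ 2 * k₂ + 2 := by exact_mod_cast hk2b
    linarith
  obtain ⟨k, hk⟩ : ∃ k, k = ⌈δ * D.n i / 2⌉₊ := ⟨_, rfl⟩
  have hka : δ * D.n i / 2 ≤ k := by
    rw [hk]
    exact Nat.le_ceil _
  have hkb : (k : ℝ) < δ * D.n i / 2 + 1 := by
    rw [hk]
    exact Nat.ceil_lt_add_one (by positivity)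
  have hkn : k ≤ D.n i := by
    rw [hk]
    refine Nat.ceil_le.2 ?_
    have : δ * D.n i ≤ 1 / 8 * D.n i := mul_le_mul_of_nonneg_right hδ8 hnr.le
    linarith
  -- the bundle
  obtain ⟨ι, β, hι, hβ, hβp, hβι⟩ := hELT hEMB k₂ (D.d i b₀) (Fin 1 × Fin (D.n i))
    (inj k₂ (D.n i) hk2d) 1 hk2c (inj_inj _ _ _) one_pos
  obtain ⟨B, ⟨Y, hY⟩, ⟨Y', hY'⟩, hB3, hB4, hB5⟩ := hBLD hMASS D hD i 1 b₀ β ((k₂ : ℝ) - 1) hβ hβp
    (by
      have : (2 * k₂ : ℝ) ≤ D.n i := by exact_mod_cast hk2d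
      have h5 : (0 : ℝ) ≤ k₂ := Nat.cast_nonneg _
      push_cast
      linarith)
  set ρ : Bool → ℕ := fun b' => if b' = b₀ then k else 0 with hρ
  have hρk : ∀ b, ρ b ≤ 1 * D.n i := by
    intro b
    rw [one_mul, hρ]
    show (if b = b₀ then k else 0) ≤ D.n i
    split_ifs
    · exact hkn
    · exact Nat.zero_le _
  obtain ⟨hcp, hcpτ⟩ := (hPRJ D hD.toGood i 1).2 ρ hρk
  -- the traces
  have hτ : ∀ τ ∈ TracialStates L, ∀ w : ℝ, (τ (j 0 (D.one 0 b₀))).re = w →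
      (τ (j i (D.one i b₀))).re = 1 / 2 + (2 * w - 1) * ((i + 1 : ℝ) / (i + 2)) ∧
      (τ (j i (D.one i (!b₀)))).re = 1 / 2 - (2 * w - 1) * ((i + 1 : ℝ) / (i + 2)) ∧
      (τ (j i (D.cp i 1 ρ 0 0))).re =
        (k : ℝ) / D.n i * (1 / 2 + (2 * w - 1) * ((i + 1 : ℝ) / (i + 2))) := by
    intro τ hτ w hw
    obtain ⟨-, -, m3, m4, m5⟩ := hMASS D hD L j hL τ hτ
    have e1 : (τ (j i (D.one i b₀))).re = 1 / 2 + (2 * w - 1) * ((i + 1 : ℝ) / (i + 2)) := by
      rw [m3 i b₀, Complex.ofReal_re, hw]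
    have hw' : (τ (j 0 (D.one 0 (!b₀)))).re = 1 - w := by
      cases b₀
      · show (τ (j 0 (D.one 0 true))).re = 1 - w
        linarith
      · show (τ (j 0 (D.one 0 false))).re = 1 - w
        linarith
    have e2 : (τ (j i (D.one i (!b₀)))).re = 1 / 2 - (2 * w - 1) * ((i + 1 : ℝ) / (i + 2)) := by
      rw [m3 i (!b₀), Complex.ofReal_re, hw']
      ring
    refine ⟨e1, e2, ?_⟩
    have h4 := hcpτ L j hL τ hτ
    rw [trM11, Matrix.map_apply] at h4
    have h6 : ∑ b, ((ρ b : ℝ) / D.n i : ℝ) * τ (j i (D.one i b)) =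
        ((((k : ℝ) / D.n i : ℝ)) : ℂ) * τ (j i (D.one i b₀)) := by
      rw [Fintype.sum_eq_single b₀]
      · rw [hρ]
        simp
      · intro b hb
        rw [hρ]
        simp [hb]
    rw [h4, h6, Complex.re_ofReal_mul, e1]
  have hfr : (1 / 2 : ℝ) ≤ (i + 1 : ℝ) / (i + 2) ∧ (i + 1 : ℝ) / (i + 2) ≤ 1 := by
    have h5 : (0 : ℝ) ≤ i := Nat.cast_nonneg _
    constructor
    · rw [div_le_div_iff₀ (by norm_num) (by positivity)]
      linarith
    · rw [div_le_one (by positivity)]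
      linarith
  refine ⟨j i (D.cp i 1 ρ 0 0), j i (D.one i (!b₀)), j i (B 0 0), map_prj _ (prj11 hcp),
    map_prj _ (one_prj _ _ _), ⟨j i (Y 0 0), ?_⟩, ⟨j i (Y' 0 0), ?_⟩, ?_, ?_, ?_, ?_⟩
  · rw [hY, mul11, star11, map_mul, map_star]
  · rw [← map_one (j i), ← map_sub, ← map_star, ← map_mul]
    congr 1
    have h4 : (1 - B) 0 0 = (star Y' * Y') 0 0 := by rw [hY']
    rw [mul11, star11, Matrix.sub_apply, Matrix.one_apply_eq] at h4
    exact h4
  · -- `z b z = z`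
    intro ε hε
    refine ⟨j i (D.one i (!b₀)), ?_⟩
    have h4 : D.one i (!b₀) * B 0 0 * D.one i (!b₀) = D.one i (!b₀) := by
      ext1 z
      rw [ContinuousMap.mul_apply, ContinuousMap.mul_apply]
      have hz : D.one i (!b₀) z = if z.1 = !b₀ then 1 else 0 := rfl
      rw [hz]
      split_ifs with h
      · obtain ⟨b', y⟩ := z
        have h' : b' = !b₀ := h
        subst h'
        rw [hB4, if_pos rfl, one_mul, one_mul]
      · rw [mul_zero]
    rw [← map_star, (one_prj D i (!b₀)).2.star_eq, ← map_mul, ← map_mul, h4, sub_self, norm_zero]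
    exact hε
  · -- the states with small mass
    intro τ hτ' hw
    obtain ⟨-, e2, e3⟩ := hτ τ hτ' _ hw
    rw [e2, e3]
    have hk1 : (k : ℝ) / D.n i ≤ 1 := by
      rw [div_le_one hnr]
      exact_mod_cast hkn
    have h5 : (0 : ℝ) ≤ (k : ℝ) / D.n i := by positivity
    obtain ⟨f1, f2⟩ := hfr
    have h6 : 1 / 2 + (2 * (1 / 4) - 1) * ((i + 1 : ℝ) / (i + 2)) ≤ 1 / 4 := by linarith
    have h7 : 0 ≤ 1 / 2 + (2 * (1 / 4) - 1) * ((i + 1 : ℝ) / (i + 2)) := by linarith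
    have h8 : (k : ℝ) / D.n i * (1 / 2 + (2 * (1 / 4) - 1) * ((i + 1 : ℝ) / (i + 2))) ≤
        1 * (1 / 2 + (2 * (1 / 4) - 1) * ((i + 1 : ℝ) / (i + 2))) :=
      mul_le_mul_of_nonneg_right hk1 h7
    linarith
  · -- the states with large mass
    intro τ hτ' hw
    obtain ⟨-, -, e3⟩ := hτ τ hτ' _ hw
    rw [e3]
    have h4 := hB5 L j hL τ hτ'
    rw [trM11, Matrix.map_apply] at h4
    refine lt_of_lt_of_le ?_ h4
    obtain ⟨f1, f2⟩ := hfr
    have h7 : 1 / 2 + (2 * (3 / 4) - 1) * ((i + 1 : ℝ) / (i + 2)) ≤ 1 := by linarith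
    have h5 : (0 : ℝ) ≤ (k : ℝ) / D.n i := by positivity
    have h8 : (k : ℝ) / D.n i * (1 / 2 + (2 * (3 / 4) - 1) * ((i + 1 : ℝ) / (i + 2))) ≤
        (k : ℝ) / D.n i * 1 := mul_le_mul_of_nonneg_left h7 h5
    have h9 : (k : ℝ) / D.n i * 1 + s < ((k₂ : ℝ) - 1) / D.n i := by
      rw [mul_one, div_add' _ _ _ hnr.ne', div_lt_div_iff_of_pos_right hnr]
      have h10 : (s + 2 * δ) * D.n i < s'' * D.n i := mul_lt_mul_of_pos_right hδs hnr
      have h11 : (D.n i : ℝ) * δ = δ * D.n i := mul_comm _ _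
      have h12 : (s + 2 * δ) * D.n i = s * D.n i + 2 * (δ * D.n i) := by ring
      linarith
    linarith
  · -- non-comparison
    intro hcle
    refine hCORE hPATCH hBU D hD.toGood L j hL i 1 k k₂ b₀ ι (inj k₂ (D.n i) hk2d) β B hι
      (inj_inj _ _ _) hβι hB3 (by rw [one_mul]; exact hkn) (fun r => ?_) (cuntz11 ?_)
    · refine tail_ineq hδ hδ8 hn1 ?_ hka ?_
      · refine Finset.prod_pos fun l _ => ?_
        have := hD.toGood.lt (i + l)
        omega
      · have h4 := h2 r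
        push_cast
        exact h4
    · rw [Matrix.map_apply, Matrix.map_apply]
      exact hcle

end Pool.Agent.H106.ELLOW
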