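import Pool.Agent.H867.FT.Gen2

set_option autoImplicit false

namespace Pool.Agent.H106.FT

/-- divisibility in a free module over a domain -/
theorem tor_dvd (P R : Type) [CommRing P] [IsDomain P] [CommRing R] [Algebra P R]
    [Module.Finite P R] [Module.Free P R] (s₁ s₂ : P) (h : ∀ u, s₁ ∣ s₂ * u → s₁ ∣ u)
    (r₁ r₂ : R) (hr : s₂ • r₁ = s₁ • r₂) : ∃ r' : R, r₁ = s₁ • r' := by
  classical
  obtain b := Module.Free.chooseBasis P R
  have h1 : ∀ i, ∃ c : P, b.repr r₁ i = s₁ * c := by
    intro i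
    have h2 : s₂ * b.repr r₁ i = s₁ * b.repr r₂ i := by
      have h3 := DFunLike.congr_fun (congrArg b.repr hr) i
      rw [map_smul, map_smul, Finsupp.smul_apply, Finsupp.smul_apply, smul_eq_mul,
        smul_eq_mul] at h3
      exact h3
    exact h _ ⟨_, h2⟩
  choose c hc using h1
  refine ⟨∑ i, c i • b i, ?_⟩
  rw [Finset.smul_sum]
  have h4 : r₁ = ∑ i, b.repr r₁ i • b i := (b.sum_repr r₁).symm
  refine h4.trans ?_
  refine Finset.sum_congr rfl fun i _ => ?_
  rw [smul_smul, ← hc i]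

theorem tor : Pool.Agent.H867.FT.S_TOR := by
  intro P R K _ _ _ _ _ _ _ _ _ _ _ _ D t s₁ s₂ ht hs₁ hreg hD h₁ h₂
  have hRK : Function.Injective (algebraMap R K) := IsFractionRing.injective R K
  have hPR : Function.Injective (algebraMap P R) := FaithfulSMul.algebraMap_injective P R
  have hs₁K : algebraMap P K s₁ ≠ 0 := by
    rw [IsScalarTower.algebraMap_apply P R K]
    intro h0
    apply hs₁
    apply hPR
    apply hRK
    rw [h0, map_zero, map_zero]
  have key : ∀ z : K, z ∈ (1 / D : Submodule R K) ↔ ∃ r : R, z * t = algebraMap R K r := by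
    intro z
    rw [Submodule.mem_div_iff_forall_mul_mem]
    constructor
    · intro hz
      obtain ⟨r₁, hr₁⟩ := Submodule.mem_one.1 (hz _ h₁)
      obtain ⟨r₂, hr₂⟩ := Submodule.mem_one.1 (hz _ h₂)
      have h3 : s₂ • r₁ = s₁ • r₂ := by
        apply hRK
        rw [Algebra.smul_def, Algebra.smul_def, map_mul, map_mul, hr₁, hr₂,
          ← IsScalarTower.algebraMap_apply P R K, ← IsScalarTower.algebraMap_apply P R K]
        ring
      obtain ⟨r', hr'⟩ := tor_dvd P R s₁ s₂ hreg r₁ r₂ h3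
      refine ⟨r', ?_⟩
      have h4 : algebraMap P K s₁ * (z * t) = algebraMap P K s₁ * algebraMap R K r' := by
        have h5 : algebraMap R K r₁ = algebraMap P K s₁ * algebraMap R K r' := by
          rw [hr', Algebra.smul_def, map_mul, ← IsScalarTower.algebraMap_apply P R K]
        rw [← h5, hr₁]
        ring
      exact mul_left_cancel₀ hs₁K h4
    · rintro ⟨r, hr⟩ y hy
      obtain ⟨r', hr'⟩ := hD y hy
      refine Submodule.mem_one.2 ⟨r' * r, ?_⟩
      rw [hr', map_mul, ← hr]
      ring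
  ext z
  rw [Submodule.mem_div_iff_forall_mul_mem, Submodule.mem_span_singleton]
  constructor
  · intro hz
    have h5 : t⁻¹ ∈ (1 / D : Submodule R K) := (key _).2 ⟨1, by
      rw [map_one, inv_mul_cancel₀ ht]⟩
    obtain ⟨r, hr⟩ := Submodule.mem_one.1 (hz _ h5)
    refine ⟨r, ?_⟩
    rw [Algebra.smul_def, hr, mul_assoc, inv_mul_cancel₀ ht, mul_one]
  · rintro ⟨r, hr⟩ y hy
    obtain ⟨r', hr'⟩ := (key y).1 hy
    refine Submodule.mem_one.2 ⟨r * r', ?_⟩
    rw [← hr, map_mul, ← hr', Algebra.smul_def]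
    ring

end Pool.Agent.H106.FT
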