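import Pool.Agent.H252.MD.Iface
import Pool.Graph.R_pool_sql_team_seeded_620a6dc7.H107_ZS.TGAP
import Pool.Graph.R_pool_sql_team_seeded_620a6dc7.H107_ZS.TKL
import Pool.Graph.R_pool_sql_team_seeded_620a6dc7.H107_ZS.TCYC

/-!
# The uniform gap over long intervals (S_GAP)
-/

set_option autoImplicit false

namespace Pool.Agent.H106.MDGAP

open Filter Topology Matrix
open Pool.Agent.H107ZS Pool.Agent.H327R4.Pure Pool.Agent.H252.MD
open scoped CStarAlgebra ComplexOrder

theorem zt_pow (i : ℕ) : zt 1 ^ i = zt (i : ℤ) := by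
  unfold zt
  rw [← ofAdd_nsmul]
  simp

theorem zt_one_pow_ne (n : ℕ) (hn : 0 < n) : zt 1 ^ n ≠ 1 := by
  rw [zt_pow]
  intro h
  have h1 : (n : ℤ) = 0 := by
    have := congrArg Multiplicative.toAdd h
    simpa [zt] using this
  omega

theorem mem_zpowers (g : Zm) : g ∈ Subgroup.zpowers (zt 1) := by
  refine Subgroup.mem_zpowers_iff.2 ⟨Multiplicative.toAdd g, ?_⟩
  unfold zt
  rw [← ofAdd_zsmul]
  simp

theorem s_GAP : Pool.Agent.H252.MD.S_GAP := by
  intro X _ _ _ _ _ B _ _ _ n ι u e E hE a b ε r ha hb hε h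
  have hpos : ∀ c : B, 0 ≤ c → ∀ x, 0 ≤ Ft E c x := by
    intro c hc x
    obtain ⟨d, rfl⟩ := CStarAlgebra.nonneg_iff_eq_star_mul_self.1 hc
    change 0 ≤ (∑ k, E k k (star d * d) x).re
    rw [Complex.re_sum]
    exact Finset.sum_nonneg fun k _ => (Complex.le_def.1 (hE.pos k d x)).1
  have hsub : ∀ c d : B, ∀ x, Ft E (c - d) x = Ft E c x - Ft E d x := by
    intro c d x
    change (∑ k, E k k (c - d) x).re = (∑ k, E k k c x).re - (∑ k, E k k d x).re
    simp only [map_sub, ContinuousMap.sub_apply, Finset.sum_sub_distrib, Complex.sub_re]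
  have hmono : ∀ c d : B, c ≤ d → ∀ x, Ft E c x ≤ Ft E d x := by
    intro c d hcd x
    have := hpos (d - c) (sub_nonneg.2 hcd) x
    rw [hsub] at this
    linarith
  obtain ⟨m, K, ε', γ, hK, hε', hγ, hS⟩ := t_KL Zm X (⊤ : Subgroup Zm)
    (fun m => Ft E (phi (1 / ((m : ℝ) + 1)) b) - Ft E (phi ε a) - r • (1 : C(X, ℝ))) (by
      intro m x
      have h1 := hmono _ _ (TGAP.phi_anti b hb (δ := 1 / (((m + 1 : ℕ) : ℝ) + 1))
        (δ' := 1 / ((m : ℝ) + 1)) (by positivity) (by
          apply one_div_le_one_div_of_le (by positivity)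
          push_cast
          linarith)) x
      simp only [ContinuousMap.sub_apply]
      linarith) (by
      intro Λ hΛ
      obtain ⟨δ, hδ, hlt⟩ := h Λ hΛ
      obtain ⟨m, hm⟩ := exists_nat_one_div_lt hδ
      refine ⟨m, ?_⟩
      have h1 : 0 ≤ Λ (Ft E (phi (1 / ((m : ℝ) + 1)) b) - Ft E (phi δ b)) := by
        apply hΛ.nonneg
        intro x
        have h2 := hmono _ _ (TGAP.phi_anti b hb (δ := 1 / ((m : ℝ) + 1))
          (δ' := δ) (by positivity) hm.le) x
        change (0 : ℝ) ≤ Ft E (phi (1 / ((m : ℝ) + 1)) b) x - Ft E (phi δ b) x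
        linarith
      rw [map_sub] at h1
      rw [map_sub, map_sub, map_smul, hΛ.one, smul_eq_mul, mul_one]
      linarith)
  obtain ⟨N, hN0, hN⟩ := fol_interval_CYC (z := zt 1) zt_one_pow_ne K
    (fun g _ => mem_zpowers g) ε' hε'
  refine ⟨1 / ((m : ℝ) + 1), γ, N, by positivity, hγ, ?_⟩
  intro L hL x
  have hinj : Set.InjOn (fun i : ℕ => zt 1 ^ i) (Finset.range L : Set ℕ) := by
    intro i _ j _ hij
    have h1 : zt (i : ℤ) = zt (j : ℤ) := by
      rw [← zt_pow, ← zt_pow]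
      exact hij
    have h2 : (i : ℤ) = j := Multiplicative.ofAdd.injective h1
    exact_mod_cast h2
  have h1 := hS ((Finset.range L).image fun i => zt 1 ^ i) (fun g _ => Subgroup.mem_top g)
    (hN L hL _ (by
      intro s
      rw [Finset.mem_image]
      simp only [Finset.mem_range])) x
  rw [Finset.card_image_of_injOn hinj, Finset.card_range, Finset.sum_image hinj] at h1
  have h2 : ∀ i ∈ Finset.range L,
      (Ft E (phi (1 / ((m : ℝ) + 1)) b) - Ft E (phi ε a) - r • (1 : C(X, ℝ))) (zt 1 ^ i • x) =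
      (Ft E (phi (1 / ((m : ℝ) + 1)) b) - Ft E (phi ε a)) (zt ((i : ℕ) : ℤ) • x) - r := by
    intro i _
    rw [zt_pow]
    simp [ContinuousMap.sub_apply]
  rw [Finset.sum_congr rfl h2, Finset.sum_sub_distrib, Finset.sum_const, Finset.card_range,
    nsmul_eq_mul] at h1
  linarith

end Pool.Agent.H106.MDGAP
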