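import Pool.Agent.H387.QR.DefsA

/-!
# A2. `ad_i` is locally nilpotent on the kernel of `D_i` (in the shuffle algebra)

Subtask of helper387 (MP_8ad3a8_al), done by helper106.
-/

namespace Pool.Agent.H387.QR

variable {I : Type} [Fintype I] [DecidableEq I] {C : Cartan I} {K : Type*} [Field K] [HasQ K]

namespace A2

theorem ad_apply (i : I) (a : Fn I K) :
    adop C K i a = Lop C i a - Rop C i (Qinv C i a) := rfl

theorem qne (n : ℤ) : qq K ^ n ≠ 0 := zpow_ne_zero _ HasQ.q_ne

theorem Qinv_L (i j : I) (a : Fn I K) :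
    Qinv C i (Lop C j a) = qq K ^ (-C.br i j) • Lop C j (Qinv C i a) := by
  have h := L_Q C i j (Qinv C i a)
  rw [Q_Qinv] at h
  rw [h, map_smul, Qinv_Q]

/-- the exponents `c_k` -/
def ck (C : Cartan I) (i j : I) (k : ℕ) : ℤ := C.br i j + k * C.br i i

theorem ck_succ (i j : I) (k : ℕ) : ck C i j (k + 1) = ck C i j k + C.br i i := by
  simp only [ck]; push_cast; ring

/-- the operators `A_k` -/
def Aop (C : Cartan I) (K : Type*) [Field K] [HasQ K] (i j : I) : ℕ → Fn I K →ₗ[K] Fn I K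
  | 0 => Lop C j
  | k + 1 => Lop C i ∘ₗ Aop C K i j k - qq K ^ (-ck C i j k) • (Aop C K i j k ∘ₗ Lop C i)

theorem A_zero (i j : I) (a : Fn I K) : Aop C K i j 0 a = Lop C j a := rfl

theorem A_succ (i j : I) (k : ℕ) (a : Fn I K) : Aop C K i j (k + 1) a =
    Lop C i (Aop C K i j k a) - qq K ^ (-ck C i j k) • Aop C K i j k (Lop C i a) := rfl

theorem Qinv_A (i j : I) (k : ℕ) (a : Fn I K) :
    Qinv C i (Aop C K i j k a) = qq K ^ (-ck C i j k) • Aop C K i j k (Qinv C i a) := by
  induction k generalizing a with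
  | zero => rw [A_zero, A_zero, Qinv_L]; simp [ck]
  | succ k ih =>
    rw [A_succ, A_succ, map_sub, map_smul, Qinv_L, ih, ih, Qinv_L, map_smul, map_smul,
      ck_succ, neg_add, qadd K]
    module

theorem R_A (i j : I) (k : ℕ) (a : Fn I K) :
    Rop C i (Aop C K i j k a) = Aop C K i j k (Rop C i a) := by
  induction k generalizing a with
  | zero => rw [A_zero, A_zero, L_R]
  | succ k ih => rw [A_succ, A_succ, map_sub, map_smul, ← L_R, ih, ih, ← L_R]

theorem ad_A (i j : I) (k : ℕ) (a : Fn I K) : adop C K i (Aop C K i j k a) =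
    Aop C K i j (k + 1) a + qq K ^ (-ck C i j k) • Aop C K i j k (adop C K i a) := by
  rw [ad_apply, ad_apply, Qinv_A, map_smul, R_A, A_succ, map_sub]
  module

theorem D_A (i j : I) (hij : i ≠ j) (k : ℕ) (a : Fn I K) :
    Dop i (Aop C K i j k a) = qq K ^ (ck C i j k) • Aop C K i j k (Dop i a) := by
  induction k generalizing a with
  | zero =>
    rw [A_zero, A_zero, D_L, if_neg hij, zero_add, br_symm C j i]; simp [ck]
  | succ k ih =>
    rw [A_succ, A_succ, map_sub, map_smul, D_L, if_pos rfl, ih, ih, D_L, if_pos rfl, map_add,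
      map_smul, map_smul, ck_succ, qadd K, zpow_neg]
    have := qne (K := K) (ck C i j k)
    simp only [smul_add, smul_sub, smul_smul]
    have e1 : (qq K ^ ck C i j k)⁻¹ * qq K ^ ck C i j k = 1 := inv_mul_cancel₀ this
    rw [e1, ← mul_assoc (qq K ^ ck C i j k)⁻¹, e1]
    rw [mul_assoc _ _ (qq K ^ ck C i j k)⁻¹]
    rw [show qq K ^ C.br i i * (qq K ^ ck C i j k)⁻¹ =
      (qq K ^ ck C i j k)⁻¹ * qq K ^ C.br i i from mul_comm _ _,
      ← mul_assoc (qq K ^ ck C i j k), mul_inv_cancel₀ this]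
    module

/-- the coefficients `γ_k` -/
def gam (C : Cartan I) (K : Type*) [Field K] [HasQ K] (i j : I) : ℕ → K
  | 0 => 1
  | k + 1 => gam C K i j k * (qq K ^ (C.br i j) - qq K ^ (-ck C i j k))

theorem D_A_j (i j : I) (hij : i ≠ j) (k : ℕ) : ∃ s : K, ∀ a : Fn I K,
    Dop j (Aop C K i j k a) = gam C K i j k • ((Lop C i) ^ k) a + s • Aop C K i j k (Dop j a) := by
  induction k with
  | zero =>
    refine ⟨qq K ^ C.br j j, fun a => ?_⟩
    rw [A_zero, A_zero, D_L, if_pos rfl]; simp [gam]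
  | succ k ih =>
    obtain ⟨s, hs⟩ := ih
    refine ⟨s * qq K ^ C.br i j, fun a => ?_⟩
    rw [A_succ, A_succ, map_sub, map_smul, D_L, if_neg hij.symm, hs, hs, D_L, if_neg hij.symm,
      map_add, map_smul, map_smul, zero_add, zero_add, map_smul, gam]
    have e1 : ((Lop C i) ^ (k + 1)) a = Lop C i (((Lop C (K := K) i) ^ k) a) := by
      rw [pow_succ']; rfl
    have e2 : ((Lop C i) ^ k) (Lop C i a) = Lop C i (((Lop C (K := K) i) ^ k) a) := by
      rw [← e1, pow_succ]; rfl
    rw [e1, e2]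
    module

theorem D_A_l (i j l : I) (hi : l ≠ i) (hj : l ≠ j) (k : ℕ) : ∃ s : K, ∀ a : Fn I K,
    Dop l (Aop C K i j k a) = s • Aop C K i j k (Dop l a) := by
  induction k with
  | zero =>
    refine ⟨qq K ^ C.br j l, fun a => ?_⟩
    rw [A_zero, A_zero, D_L, if_neg hj, zero_add]
  | succ k ih =>
    obtain ⟨s, hs⟩ := ih
    refine ⟨s * qq K ^ C.br i l, fun a => ?_⟩
    rw [A_succ, A_succ, map_sub, map_smul, D_L, if_neg hi, hs, hs, D_L, if_neg hi,
      zero_add, zero_add, map_smul, map_smul]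
    module

theorem A_nil (i j : I) (k : ℕ) (a : Fn I K) : Aop C K i j k a [] = 0 := by
  induction k generalizing a with
  | zero => rw [A_zero]; simp
  | succ k ih => rw [A_succ, Pi.sub_apply, Pi.smul_apply, ih]; simp

theorem gam_zero (i j : I) (hij : i ≠ j) {k : ℕ} (hk : (-C.a i j).toNat < k) :
    gam C K i j k = 0 := by
  induction k with
  | zero => omega
  | succ k ih =>
    rw [gam]
    rcases Nat.lt_succ_iff_lt_or_eq.mp hk with h | h
    · rw [ih h, zero_mul]
    · have h0 := C.off i j hij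
      have h1 : ((k : ℕ) : ℤ) = -C.a i j := by rw [← h]; omega
      have : -ck C i j k = C.br i j := by
        rw [ck, h1]
        simp only [Cartan.br, C.diag]
        ring
      rw [this, sub_self, mul_zero]

theorem A_eq_zero (i j : I) (hij : i ≠ j) {k : ℕ} (hk : (-C.a i j).toNat < k) (a : Fn I K) :
    Aop C K i j k a = 0 := by
  funext w
  induction w generalizing a with
  | nil => exact A_nil i j k a
  | cons l w ih =>
    have key : ∃ s : K, Dop l (Aop C K i j k a) = s • Aop C K i j k (Dop l a) := by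
      by_cases hi : l = i
      · subst hi; exact ⟨_, D_A l j hij k a⟩
      · by_cases hj : l = j
        · subst hj
          obtain ⟨s, hs⟩ := D_A_j (C := C) (K := K) i l hij k
          refine ⟨s, ?_⟩
          rw [hs, gam_zero i l hij hk, zero_smul, zero_add]
        · obtain ⟨s, hs⟩ := D_A_l (C := C) (K := K) i j l hi hj k
          exact ⟨s, hs a⟩
    obtain ⟨s, hs⟩ := key
    have := congrFun hs w
    rw [Dop_apply, Pi.smul_apply, ih] at this
    rw [this]; simp

/-- the `ad_i`-nilpotent functions -/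
def Nl (C : Cartan I) (K : Type*) [Field K] [HasQ K] (i : I) : Submodule K (Fn I K) where
  carrier := {x | ∃ N : ℕ, ((adop C K i) ^ N) x = 0}
  zero_mem' := ⟨0, by simp⟩
  add_mem' := by
    rintro x y ⟨M, hM⟩ ⟨N, hN⟩
    refine ⟨M + N, ?_⟩
    rw [map_add]
    have h1 : ((adop C K i) ^ (M + N)) x = 0 := by
      rw [add_comm, pow_add, Module.End.mul_apply, hM, map_zero]
    have h2 : ((adop C K i) ^ (M + N)) y = 0 := by
      rw [pow_add, Module.End.mul_apply, hN, map_zero]
    rw [h1, h2, add_zero]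
  smul_mem' := by
    rintro c x ⟨M, hM⟩
    exact ⟨M, by rw [map_smul, hM, smul_zero]⟩

theorem mem_Nl {i : I} {x : Fn I K} : x ∈ Nl C K i ↔ ∃ N : ℕ, ((adop C K i) ^ N) x = 0 := Iff.rfl

theorem Nl_of_ad {i : I} {x : Fn I K} (h : adop C K i x ∈ Nl C K i) : x ∈ Nl C K i := by
  obtain ⟨N, hN⟩ := h
  exact ⟨N + 1, by rw [pow_succ, Module.End.mul_apply, hN]⟩

theorem A_Nl (i j : I) (hij : i ≠ j) (N : ℕ) : ∀ (m k : ℕ) (b : Fn I K),
    (-C.a i j).toNat < k + m → ((adop C K i) ^ N) b = 0 → Aop C K i j k b ∈ Nl C K i := by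
  induction N with
  | zero =>
    intro m k b _ hb
    have : b = 0 := by simpa using hb
    rw [this, map_zero]; exact Submodule.zero_mem _
  | succ N ihN =>
    intro m
    induction m with
    | zero =>
      intro k b hk _
      rw [A_eq_zero i j hij (by simpa using hk)]; exact Submodule.zero_mem _
    | succ m ihm =>
      intro k b hk hb
      apply Nl_of_ad
      rw [ad_A]
      refine Submodule.add_mem _ (ihm (k + 1) b (by omega) hb) (Submodule.smul_mem _ _ ?_)
      refine ihN (m + 1) k _ hk ?_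
      rw [← Module.End.mul_apply, ← pow_succ]; exact hb

/-- the span of the functions of the words -/
def ff (C : Cartan I) (K : Type*) [Field K] [HasQ K] : Submodule K (Fn I K) :=
  Submodule.span K (Set.range (ph C (K := K)))

theorem L_ff (j : I) {a : Fn I K} (ha : a ∈ ff C K) : Lop C j a ∈ ff C K := by
  refine Submodule.span_induction (p := fun a _ => Lop C j a ∈ ff C K) ?_ ?_ ?_ ?_ ha
  · rintro _ ⟨w, rfl⟩
    exact Submodule.subset_span ⟨j :: w, rfl⟩
  · rw [map_zero]; exact Submodule.zero_mem _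
  · intro x y _ _ hx hy
    rw [map_add]; exact Submodule.add_mem _ hx hy
  · intro c x _ hx
    rw [map_smul]; exact Submodule.smul_mem _ _ hx

theorem A_ff (i j : I) (k : ℕ) {a : Fn I K} (ha : a ∈ ff C K) : Aop C K i j k a ∈ ff C K := by
  induction k generalizing a with
  | zero => exact L_ff j ha
  | succ k ih =>
    rw [A_succ]
    exact Submodule.sub_mem _ (L_ff i (ih ha)) (Submodule.smul_mem _ _ (ih (L_ff i ha)))

/-- the good functions -/
def Gs (C : Cartan I) (K : Type*) [Field K] [HasQ K] (i : I) : Submodule K (Fn I K) :=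
  ff C K ⊓ LinearMap.ker (Dop (K := K) i) ⊓ Nl C K i

theorem mem_Gs {i : I} {x : Fn I K} : x ∈ Gs C K i ↔ (x ∈ ff C K ∧ Dop i x = 0) ∧
    ∃ N : ℕ, ((adop C K i) ^ N) x = 0 := Iff.rfl

theorem A_Gs (i j : I) (hij : i ≠ j) (k : ℕ) {b : Fn I K} (hb : b ∈ Gs C K i) :
    Aop C K i j k b ∈ Gs C K i := by
  obtain ⟨⟨h1, h2⟩, N, h3⟩ := mem_Gs.mp hb
  refine mem_Gs.mpr ⟨⟨A_ff i j k h1, ?_⟩, ?_⟩
  · rw [D_A i j hij, h2, map_zero, smul_zero]
  · exact A_Nl i j hij N ((-C.a i j).toNat + 1) k b (by omega) h3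

/-- the span of the `L ^ n b` with `b` good -/
def Ss (C : Cartan I) (K : Type*) [Field K] [HasQ K] (i : I) : Submodule K (Fn I K) :=
  Submodule.span K {x | ∃ (n : ℕ) (b : Fn I K), b ∈ Gs C K i ∧ x = ((Lop C i) ^ n) b}

theorem L_Ss (i : I) {a : Fn I K} (ha : a ∈ Ss C K i) : Lop C i a ∈ Ss C K i := by
  refine Submodule.span_induction (p := fun a _ => Lop C i a ∈ Ss C K i) ?_ ?_ ?_ ?_ ha
  · rintro _ ⟨n, b, hb, rfl⟩
    refine Submodule.subset_span ⟨n + 1, b, hb, ?_⟩
    rw [pow_succ', Module.End.mul_apply]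
  · rw [map_zero]; exact Submodule.zero_mem _
  · intro x y _ _ hx hy
    rw [map_add]; exact Submodule.add_mem _ hx hy
  · intro c x _ hx
    rw [map_smul]; exact Submodule.smul_mem _ _ hx

theorem A_Ss_aux (i j : I) (hij : i ≠ j) (n : ℕ) : ∀ (k : ℕ) (b : Fn I K), b ∈ Gs C K i →
    Aop C K i j k (((Lop C i) ^ n) b) ∈ Ss C K i := by
  induction n with
  | zero =>
    intro k b hb
    exact Submodule.subset_span ⟨0, _, A_Gs i j hij k hb, by simp⟩
  | succ n ih =>
    intro k b hb
    have e1 : ((Lop C i) ^ (n + 1)) b = Lop C i (((Lop C (K := K) i) ^ n) b) := by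
      rw [pow_succ', Module.End.mul_apply]
    rw [e1]
    have h := A_succ (C := C) (K := K) i j k (((Lop C (K := K) i) ^ n) b)
    have h2 : Aop C K i j k (Lop C i (((Lop C (K := K) i) ^ n) b)) = qq K ^ (ck C i j k) •
        (Lop C i (Aop C K i j k (((Lop C (K := K) i) ^ n) b)) -
          Aop C K i j (k + 1) (((Lop C (K := K) i) ^ n) b)) := by
      rw [h, sub_sub_cancel, smul_smul, ← qadd K, add_neg_cancel, zpow_zero, one_smul]
    rw [h2]
    exact Submodule.smul_mem _ _ (Submodule.sub_mem _ (L_Ss i (ih k b hb)) (ih (k + 1) b hb))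

theorem Lj_Ss (i j : I) {a : Fn I K} (ha : a ∈ Ss C K i) : Lop C j a ∈ Ss C K i := by
  by_cases hij : i = j
  · subst hij; exact L_Ss i ha
  refine Submodule.span_induction (p := fun a _ => Lop C j a ∈ Ss C K i) ?_ ?_ ?_ ?_ ha
  · rintro _ ⟨n, b, hb, rfl⟩
    exact A_Ss_aux i j hij n 0 b hb
  · rw [map_zero]; exact Submodule.zero_mem _
  · intro x y _ _ hx hy
    rw [map_add]; exact Submodule.add_mem _ hx hy
  · intro c x _ hx
    rw [map_smul]; exact Submodule.smul_mem _ _ hx

theorem ad_nil (i : I) : adop C K i (ph C []) = 0 := by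
  have h : Qinv C i (ph C (K := K) []) = ph C [] := by
    funext w
    rw [Qinv_apply]
    cases w <;> simp [ph]
  rw [ad_apply, h, R_ph_nil, ph_cons, sub_self]

theorem ph_Ss (i : I) (w : List I) : ph C (K := K) w ∈ Ss C K i := by
  induction w with
  | nil =>
    refine Submodule.subset_span ⟨0, ph C [], ?_, by simp⟩
    refine mem_Gs.mpr ⟨⟨Submodule.subset_span ⟨[], rfl⟩, D_ph_nil C i⟩, 1, ?_⟩
    rw [pow_one]; exact ad_nil i
  | cons j w ih => exact Lj_Ss i j ih

theorem ff_le (i : I) : ff C K ≤ Ss C K i := by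
  refine Submodule.span_le.mpr ?_
  rintro _ ⟨w, rfl⟩
  exact ph_Ss i w

theorem br_self (i : I) : C.br i i = 2 * (C.d i : ℤ) := by
  rw [Cartan.br, C.diag]; ring

theorem D_Lpow (i : I) {b : Fn I K} (hb : Dop i b = 0) (n : ℕ) :
    Dop i (((Lop C i) ^ (n + 1)) b) = tn K (C.d i) (n + 1) • ((Lop C i) ^ n) b := by
  induction n with
  | zero =>
    rw [pow_one, D_L, if_pos rfl, hb, map_zero, smul_zero, add_zero]
    simp [tn]
  | succ n ih =>
    have e : tn K (C.d i) (n + 1 + 1) = 1 + qq K ^ (2 * (C.d i : ℤ)) * tn K (C.d i) (n + 1) := rfl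
    rw [pow_succ', Module.End.mul_apply, D_L, if_pos rfl, ih, map_smul, e, br_self]
    rw [← Module.End.mul_apply (Lop C i), ← pow_succ', add_smul, one_smul, smul_smul]

theorem D_sum (i : I) {b : ℕ → Fn I K} (hb : ∀ n, Dop i (b n) = 0) (N : ℕ) :
    Dop i (∑ n ∈ Finset.range (N + 1), ((Lop C i) ^ n) (b n)) =
      ∑ n ∈ Finset.range N, ((Lop C i) ^ n) (tn K (C.d i) (n + 1) • b (n + 1)) := by
  rw [Finset.sum_range_succ', map_add, map_sum, pow_zero, Module.End.one_apply, hb, add_zero]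
  refine Finset.sum_congr rfl fun n _ => ?_
  rw [D_Lpow i (hb _), map_smul]

theorem unique (i : I) (N : ℕ) : ∀ b : ℕ → Fn I K, (∀ n, Dop i (b n) = 0) →
    ∑ n ∈ Finset.range N, ((Lop C i) ^ n) (b n) = 0 → ∀ n < N, b n = 0 := by
  induction N with
  | zero => intro b _ _ n hn; omega
  | succ N ih =>
    intro b hb hs
    have h1 := D_sum (C := C) i hb N
    rw [hs, map_zero] at h1
    have hd : (C.d i : ℤ) ≠ 0 := by have := C.d_pos i; omega
    have h2 : ∀ n < N, b (n + 1) = 0 := by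
      intro n hn
      have := ih (fun n => tn K (C.d i) (n + 1) • b (n + 1))
        (fun n => by rw [map_smul, hb, smul_zero]) h1.symm n hn
      exact (smul_eq_zero.mp this).resolve_left (tn_ne hd (Nat.succ_pos n))
    intro n hn
    cases n with
    | zero =>
      rw [Finset.sum_range_succ', Finset.sum_eq_zero] at hs
      · simpa using hs
      · intro n hn
        rw [h2 n (Finset.mem_range.mp hn), map_zero]
    | succ n => exact h2 n (by omega)

theorem Ss_form (i : I) {a : Fn I K} (ha : a ∈ Ss C K i) : ∃ b : ℕ → Fn I K,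
    (∀ n, b n ∈ Gs C K i) ∧ ∃ N₀ : ℕ, ∀ N ≥ N₀,
      a = ∑ n ∈ Finset.range N, ((Lop C i) ^ n) (b n) := by
  refine Submodule.span_induction (p := fun a _ => ∃ b : ℕ → Fn I K,
    (∀ n, b n ∈ Gs C K i) ∧ ∃ N₀ : ℕ, ∀ N ≥ N₀,
      a = ∑ n ∈ Finset.range N, ((Lop C i) ^ n) (b n)) ?_ ?_ ?_ ?_ ha
  · rintro _ ⟨m, b, hb, rfl⟩
    refine ⟨fun n => if n = m then b else 0, fun n => ?_, m + 1, fun N hN => ?_⟩
    · dsimp only
      split_ifs
      · exact hb
      · exact Submodule.zero_mem _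
    · rw [Finset.sum_eq_single m]
      · simp
      · intro n _ hn
        simp [hn]
      · intro h
        exact absurd (Finset.mem_range.mpr (by omega)) h
  · exact ⟨fun _ => 0, fun _ => Submodule.zero_mem _, 0, fun N _ => by simp⟩
  · rintro x y _ _ ⟨b, hb, M, hM⟩ ⟨b', hb', M', hM'⟩
    refine ⟨fun n => b n + b' n, fun n => Submodule.add_mem _ (hb n) (hb' n), max M M',
      fun N hN => ?_⟩
    rw [hM N (le_trans (le_max_left _ _) hN), hM' N (le_trans (le_max_right _ _) hN),
      ← Finset.sum_add_distrib]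
    refine Finset.sum_congr rfl fun n _ => ?_
    rw [map_add]
  · rintro c x _ ⟨b, hb, M, hM⟩
    refine ⟨fun n => c • b n, fun n => Submodule.smul_mem _ _ (hb n), M, fun N hN => ?_⟩
    rw [hM N hN, Finset.smul_sum]
    refine Finset.sum_congr rfl fun n _ => ?_
    rw [map_smul]

theorem nilp_ff (i : I) {a : Fn I K} (ha : a ∈ ff C K) (hD : Dop i a = 0) :
    ∃ N : ℕ, ((adop C K i) ^ N) a = 0 := by
  obtain ⟨b, hb, N₀, h⟩ := Ss_form i (ff_le i ha)
  have hbD : ∀ n, Dop i (b n) = 0 := fun n => (mem_Gs.mp (hb n)).1.2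
  have h1 := h (N₀ + 1) (by omega)
  have h2 := D_sum (C := C) i hbD N₀
  rw [← h1, hD] at h2
  have hd : (C.d i : ℤ) ≠ 0 := by have := C.d_pos i; omega
  have h3 : ∀ n < N₀, b (n + 1) = 0 := by
    intro n hn
    have := unique i N₀ (fun n => tn K (C.d i) (n + 1) • b (n + 1))
      (fun n => by rw [map_smul, hbD, smul_zero]) h2.symm n hn
    exact (smul_eq_zero.mp this).resolve_left (tn_ne hd (Nat.succ_pos n))
  have h4 : a = b 0 := by
    rw [h1, Finset.sum_range_succ', Finset.sum_eq_zero]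
    · simp
    · intro n hn
      rw [h3 n (Finset.mem_range.mp hn), map_zero]
  rw [h4]
  exact (mem_Gs.mp (hb 0)).2

end A2

theorem D_ad (i : I) {a : Fn I K} (ha : Dop i a = 0) : Dop i (adop C K i a) = 0 := by
  rw [A2.ad_apply, map_sub, D_L, D_R, D_Qinv, ha, Q_Qinv]
  simp

theorem ad_comm (i : I) (a : Fn I K) :
    rop i (adop C K i a) - adop C K i (rop i a) = Qop C i a - Qinv C i a := by
  rw [A2.ad_apply, A2.ad_apply, map_sub, r_L, r_R, r_Qinv, if_pos rfl, if_pos rfl, map_smul,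
    smul_smul, ← qadd K, add_neg_cancel, zpow_zero, one_smul]
  abel

theorem ad_nilp (i : I) (η : Multiset I) {a : Fn I K} (ha : a ∈ fc C K η) (hD : Dop i a = 0) :
    ∃ N : ℕ, ((adop C K i) ^ N) a = 0 := by
  refine A2.nilp_ff i ?_ hD
  refine Submodule.span_mono ?_ ha
  rintro _ ⟨w, _, rfl⟩
  exact ⟨w, rfl⟩

end Pool.Agent.H387.QR
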