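import Pool.Agent.H683.SC.PosStm

/-!
# Restricted state sums: single vertices and relabelling
-/

set_option autoImplicit false

namespace Pool.Agent.H106.SPZVR

open Turing Pool.Agent.NPC Pool.Agent.H633R2 Pool.Agent.H683.MC Pool.Agent.H683.SC

theorem ZV : S_ZV := by
  classical
  intro q a S X
  unfold Zt
  have hsum : (∑ f : Fin (KExp.vtx a).labs.length → Option (Fin q),
      if (∀ u v : Fin (KExp.vtx a).labs.length, (KExp.vtx a).Adj u v → cmp (f u) (f v)) ∧
        (∀ (v : Fin (KExp.vtx a).labs.length) (c : Fin q), f v = some c →
          S ((KExp.vtx a).labs.get v) c) then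
      ∏ v, (if f v = none then 1 else X) else 0) =
      ∑ o : Option (Fin q), if (∀ c : Fin q, o = some c → S a c) then
        (if o = none then 1 else X) else 0 := by
    refine Fintype.sum_equiv (Equiv.funUnique (Fin 1) (Option (Fin q))) _ _ ?_
    intro f
    have h1 : ((∀ u v : Fin (KExp.vtx a).labs.length, (KExp.vtx a).Adj u v → cmp (f u) (f v)) ∧
        (∀ (v : Fin (KExp.vtx a).labs.length) (c : Fin q), f v = some c →
          S ((KExp.vtx a).labs.get v) c)) ↔ (∀ c : Fin q, f (0 : Fin 1) = some c → S a c) := by
      constructor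
      · rintro ⟨-, h⟩ c hc
        exact h (0 : Fin 1) c hc
      · intro h
        refine ⟨fun u v huv => absurd huv id, ?_⟩
        intro v c hc
        have hv : v = (0 : Fin 1) := Subsingleton.elim (α := Fin 1) _ _
        rw [hv] at hc ⊢
        exact h c hc
    have h2 : (∏ v, (if f v = none then (1 : ℤ) else X)) = if f (0 : Fin 1) = none then 1 else X :=
      Fin.prod_univ_one (fun v : Fin 1 => if f v = none then (1 : ℤ) else X)
    by_cases hP : ∀ c : Fin q, f (0 : Fin 1) = some c → S a c
    · exact (if_pos (h1.2 hP)).trans (h2.trans (if_pos hP).symm)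
    · exact (if_neg (fun h => hP (h1.1 h))).trans (if_neg hP).symm
  rw [hsum, Fintype.sum_option]
  have h3 : (∀ c : Fin q, (none : Option (Fin q)) = some c → S a c) := fun c hc => by cases hc
  rw [if_pos h3, if_pos rfl]
  congr 1
  have h4 : ∀ c : Fin q, (if (∀ d : Fin q, (some c : Option (Fin q)) = some d → S a d) then
      (if (some c : Option (Fin q)) = none then (1 : ℤ) else X) else 0) = if S a c then X else 0 := by
    intro c
    have h5 : (∀ d : Fin q, (some c : Option (Fin q)) = some d → S a d) ↔ S a c := by
      constructor
      · intro h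
        exact h c rfl
      · intro h d hd
        rw [Option.some.injEq] at hd
        rwa [← hd]
    rw [if_neg (Option.some_ne_none c)]
    simp only [h5]
  rw [Finset.sum_congr rfl fun c _ => h4 c, ← Finset.sum_filter, Finset.sum_const, nsmul_eq_mul,
    mul_comm]

theorem ZR : S_ZR := by
  classical
  intro q a b t S X
  unfold Zt
  have hl : (KExp.relab a b t).labs.length = t.labs.length := List.length_map _
  refine Fintype.sum_equiv (Equiv.arrowCongr (finCongr hl) (Equiv.refl (Option (Fin q)))) _ _ ?_
  intro f
  have hval : ∀ v : Fin t.labs.length,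
      (Equiv.arrowCongr (finCongr hl) (Equiv.refl (Option (Fin q))) f) v = f ((finCongr hl).symm v) :=
    fun v => rfl
  have hlab : ∀ v : Fin (KExp.relab a b t).labs.length, (KExp.relab a b t).labs.get v =
      if t.labs.get (finCongr hl v) = a then b else t.labs.get (finCongr hl v) := by
    intro v
    show (t.labs.map fun c => if c = a then b else c)[(v : ℕ)] = _
    rw [List.getElem_map]
    rfl
  have hS : ∀ l c, (Function.update S a (S b)) l c ↔ S (if l = a then b else l) c := by
    intro l c
    by_cases h : l = a
    · rw [h, Function.update_self, if_pos rfl]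
    · rw [Function.update_of_ne h, if_neg h]
  have h1 : ((∀ u v : Fin (KExp.relab a b t).labs.length, (KExp.relab a b t).Adj u v →
        cmp (f u) (f v)) ∧
      (∀ (v : Fin (KExp.relab a b t).labs.length) (c : Fin q), f v = some c →
        S ((KExp.relab a b t).labs.get v) c)) ↔
      ((∀ u v : Fin t.labs.length, t.Adj u v →
        cmp ((Equiv.arrowCongr (finCongr hl) (Equiv.refl (Option (Fin q))) f) u)
          ((Equiv.arrowCongr (finCongr hl) (Equiv.refl (Option (Fin q))) f) v)) ∧
      (∀ (v : Fin t.labs.length) (c : Fin q),
        (Equiv.arrowCongr (finCongr hl) (Equiv.refl (Option (Fin q))) f) v = some c →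
        (Function.update S a (S b)) (t.labs.get v) c)) := by
    constructor
    · rintro ⟨h2, h3⟩
      refine ⟨fun u v huv => h2 ((finCongr hl).symm u) ((finCongr hl).symm v) huv, ?_⟩
      intro v c hc
      rw [hS]
      have h4 := h3 ((finCongr hl).symm v) c hc
      rw [hlab, Equiv.apply_symm_apply] at h4
      exact h4
    · rintro ⟨h2, h3⟩
      refine ⟨fun u v huv => ?_, ?_⟩
      · have h4 := h2 (finCongr hl u) (finCongr hl v) huv
        rw [hval, hval, Equiv.symm_apply_apply, Equiv.symm_apply_apply] at h4
        exact h4
      · intro v c hc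
        have h4 := h3 (finCongr hl v) c (by rw [hval, Equiv.symm_apply_apply]; exact hc)
        rw [hS] at h4
        rw [hlab]
        exact h4
  have h2 : (∏ v, (if f v = none then (1 : ℤ) else X)) =
      ∏ v, (if (Equiv.arrowCongr (finCongr hl) (Equiv.refl (Option (Fin q))) f) v = none then
        (1 : ℤ) else X) := by
    refine Fintype.prod_equiv (finCongr hl) _ _ ?_
    intro v
    rw [hval, Equiv.symm_apply_apply]
  rw [h2]
  simp only [h1]

end Pool.Agent.H106.SPZVR
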