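import Pool.Agent.H770.GS.TB

/-!
# Project TB: elementary facts about `pt`, `nL`, `nLd`, `eL`
-/

set_option autoImplicit false

open MeasureTheory Set intervalIntegral Filter Topology

namespace Pool.Agent.H106.TB

open Pool.Agent.H770.GS

theorem eL_eq (r x : ℝ) : Real.exp (-x ^ 2 / 4) * Real.exp (-(r - x / 2) ^ 2) = eL r x := by
  unfold eL
  rw [← Real.exp_add]
  congr 1
  ring

theorem I2_nonpos {q : ℝ} (hq : q ≤ 0) : I2 q ≤ 0 := by
  unfold I2
  rw [intervalIntegral.integral_symm]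
  have h : 0 ≤ ∫ p in q..(-q), Real.exp (-p ^ 2) :=
    intervalIntegral.integral_nonneg (by linarith) fun p _ => (Real.exp_pos _).le
  linarith

theorem I2_ge {q : ℝ} (hq : 0 ≤ q) : 2 * q * Real.exp (-q ^ 2) ≤ I2 q := by
  have h1 : ∫ _ in (-q)..q, Real.exp (-q ^ 2) = 2 * q * Real.exp (-q ^ 2) := by
    rw [intervalIntegral.integral_const, smul_eq_mul]
    ring
  rw [← h1]
  unfold I2
  refine intervalIntegral.integral_mono_on (by linarith)
    (Continuous.intervalIntegrable (by fun_prop) _ _)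
    (Continuous.intervalIntegrable (by fun_prop) _ _) ?_
  intro p hp
  apply Real.exp_le_exp.2
  have h2 : p ^ 2 ≤ q ^ 2 := by
    have h3 : 0 ≤ q - p := by linarith [hp.2]
    have h4 : 0 ≤ q + p := by linarith [hp.1]
    nlinarith [mul_nonneg h3 h4]
  linarith

theorem pt_zero {r x : ℝ} (h : 2 * r ≤ |x|) : pt r x = 0 := by
  unfold pt fL
  apply max_eq_right
  exact mul_nonpos_of_nonneg_of_nonpos (Real.exp_pos _).le (I2_nonpos (by linarith))

theorem nL_eq (r x : ℝ) : nL r x = x / 2 * fL r x + eL r x := by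
  unfold nL
  rw [eL_eq]

theorem nLd_eq (r x : ℝ) :
    nLd r x = fL r x * (2 - x ^ 2) / 4 + eL r x * (r - 3 * x / 2) := by
  unfold nLd
  rw [nL_eq, eL_eq]
  ring

theorem eL_deriv (r x : ℝ) : HasDerivAt (eL r) ((r - x) * eL r x) x := by
  unfold eL
  have h1 : HasDerivAt (fun x : ℝ => -r ^ 2 + r * x - x ^ 2 / 2) (r - x) x := by
    have h2 : HasDerivAt (fun x : ℝ => -r ^ 2 + r * x) (r * 1) x :=
      ((hasDerivAt_id' x).const_mul r).const_add (-r ^ 2)
    have h3 : HasDerivAt (fun x : ℝ => x ^ 2 / 2) ((2 : ℕ) * x ^ (2 - 1) / 2) x :=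
      (hasDerivAt_pow 2 x).div_const 2
    refine (h2.sub h3).congr_deriv ?_
    norm_num
  refine h1.exp.congr_deriv ?_
  ring

theorem fL_ge {r x : ℝ} (h : x ≤ 2 * r) : (2 * r - x) * eL r x ≤ fL r x := by
  rw [← eL_eq]
  unfold fL
  have h1 := I2_ge (q := r - x / 2) (by linarith)
  have h2 : (2 * r - x) * (Real.exp (-x ^ 2 / 4) * Real.exp (-(r - x / 2) ^ 2)) =
      Real.exp (-x ^ 2 / 4) * (2 * (r - x / 2) * Real.exp (-(r - x / 2) ^ 2)) := by ring
  rw [h2]
  exact mul_le_mul_of_nonneg_left h1 (Real.exp_pos _).le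

theorem basic : S_basic := by
  intro r _
  refine ⟨?_, ?_, ?_, fun x h => pt_zero h, nL_eq r, nLd_eq r, eL_deriv r,
    fun x _ h => fL_ge h⟩
  · unfold pt
    exact ((fL_cont r).comp continuous_abs).max continuous_const
  · intro x
    unfold pt
    rw [abs_neg]
  · intro x hx
    unfold pt
    exact max_eq_left (fL_nonneg hx)

end Pool.Agent.H106.TB
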