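import Pool.Agent.H770.GS.TE
import Pool.Agent.H106.TBbasic
import Pool.Agent.H628.TCcutneg

/-! Project TE (helper770), task TE5 (helper106): the second derivative in the cut region,
`1 ≤ r ≤ 3/2`, `2 ≤ c² ≤ 3`. -/

set_option autoImplicit false

open MeasureTheory Set intervalIntegral Filter Topology

namespace Pool.Agent.H106.TEcutup3

open Pool.Agent.Helper82.GC Pool.Agent.H770.GS
open Pool.Agent.H628.TCcutneg (om om_cont Th Th_deriv yW_deriv om_le W32 W1 Th_ge nL_hd
  abel I2_ge I2_le_pi E_eq last_eq le_of_sq_le_sq' eh)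

theorem eL_pos (r x : ℝ) : 0 < eL r x := by
  rw [← Pool.Agent.H106.TB.eL_eq]
  positivity

theorem W_eL_eq (r x : ℝ) : W r * eL r x = Real.exp (-r ^ 2) * W (r - x) := by
  unfold eL W
  rw [← Real.exp_add, ← Real.exp_add]
  congr 1
  ring

theorem nL_top (r : ℝ) : nL r (2 * r) = Real.exp (-r ^ 2) := by
  unfold nL fL
  have h : r - 2 * r / 2 = 0 := by ring
  rw [h, I2_zero]
  have e1 : -(2 * r) ^ 2 / 4 = -r ^ 2 := by ring
  rw [e1]
  simp

/-- `nL r (c a) / a` is nonincreasing. -/
theorem kap {r c a b : ℝ} (hc : 0 < c) (ha : 0 ≤ a) (hab : a ≤ b) (hb : c * b ≤ 2 * r) :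
    a * nL r (c * b) ≤ b * nL r (c * a) := by
  rcases ha.eq_or_lt with h | h
  · subst h
    have h0 : 0 ≤ c * b := mul_nonneg hc.le hab
    have h1 : 0 ≤ nL r (c * 0) := nL_nonneg (by simp) (by rw [mul_zero]; linarith)
    rw [zero_mul]
    exact mul_nonneg hab h1
  · have hd : ∀ t, 0 < t → HasDerivAt (fun t => nL r (c * t) / t)
        ((c * nLd r (c * t) * t - nL r (c * t) * 1) / t ^ 2) t :=
      fun t ht => (nL_hd r c t).div (hasDerivAt_id t) ht.ne'
    have hm : AntitoneOn (fun t => nL r (c * t) / t) (Icc a b) := by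
      refine antitoneOn_of_deriv_nonpos (convex_Icc _ _) ?_ ?_ ?_
      · exact fun t ht => (hd t (h.trans_le ht.1)).continuousAt.continuousWithinAt
      · intro t ht
        rw [interior_Icc] at ht
        exact (hd t (h.trans ht.1)).differentiableAt.differentiableWithinAt
      · intro t ht
        rw [interior_Icc] at ht
        have ht0 := h.trans ht.1
        rw [(hd t ht0).deriv]
        have h1 := nL_anti (r := r) (z := c * t) (mul_pos hc ht0)
          (lt_of_lt_of_le (mul_lt_mul_of_pos_left ht.2 hc) hb)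
        have h2 : c * t * nLd r (c * t) ≤ nL r (c * t) := h1
        apply div_nonpos_of_nonpos_of_nonneg
        · linarith
        · positivity
    have h3 := hm ⟨le_rfl, hab⟩ ⟨hab, le_rfl⟩ hab
    have hb0 : 0 < b := h.trans_le hab
    simp only at h3
    rw [div_le_div_iff₀ hb0 h] at h3
    linarith

theorem W_ge {r s : ℝ} : W r * (1 + (r ^ 2 - s ^ 2) / 2) ≤ W s := by
  have h1 : W s = W r * Real.exp ((r ^ 2 - s ^ 2) / 2) := by
    unfold W
    rw [← Real.exp_add]
    congr 1
    ring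
  rw [h1]
  apply mul_le_mul_of_nonneg_left _ (W_pos r).le
  have := Real.add_one_le_exp ((r ^ 2 - s ^ 2) / 2)
  linarith

/-- the integral of the kernel against `a` -/
theorem G_ge {r A s : ℝ} (hs0 : 0 ≤ s) (hA : 0 ≤ A) :
    W r * ((r + s) * ((A - r) + (1 + A * s) * (r - s) / 2)) ≤
      (1 + A * s) * W s - (1 + r ^ 2 - (A - s) * r) * W r := by
  have h1 := W_ge (r := r) (s := s)
  have h2 : 0 ≤ 1 + A * s := by positivity
  have h3 := mul_le_mul_of_nonneg_left h1 h2
  have e : W r * ((r + s) * ((A - r) + (1 + A * s) * (r - s) / 2)) =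
      (1 + A * s) * (W r * (1 + (r ^ 2 - s ^ 2) / 2)) - (1 + r ^ 2 - (A - s) * r) * W r := by ring
  rw [e]
  linarith

theorem Q_le {r c w A : ℝ} (hr : 1 ≤ r) (hr3 : r ≤ 3 / 2) (hc : 1 ≤ c) (hc2 : c ≤ 2) (hw : 0 ≤ w)
    (hwr : w ≤ r) (hcut : 2 * r ≤ c * (r + w)) (hy0 : -1 ≤ r - 2 * w) (hA : A = 2 * r / c) :
    Qcdd r c w ≤ -(Real.exp (-r ^ 2) / A *
      ((1 + A * (A - w)) * W (A - w) - (1 + r ^ 2 - w * r) * W r)) -
      W r * (r * nL r (c * (r - w)) + c * nLd r (c * (r - w))) := by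
  have hc0 : 0 < c := by linarith
  have hcA : c * A = 2 * r := by
    rw [hA]
    field_simp
  have hAw : A ≤ r + w := by
    rw [hA, div_le_iff₀ hc0]
    linarith
  have hrA : r ≤ A := by
    rw [hA, le_div_iff₀ hc0]
    nlinarith
  have hA0 : 0 < A := by linarith
  have hcont1 : Continuous fun a => om (a - w) * nL r (c * a) := by
    have h2 := om_cont
    have h3 := nL_cont r
    fun_prop
  have hcont2 : Continuous fun a => om (a + w) * nL r (c * a) := by
    have h2 := om_cont
    have h3 := nL_cont r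
    fun_prop
  have hcont3 : Continuous fun a => om (a - w) * a := by
    have h2 := om_cont
    fun_prop
  have hcont4 : Continuous fun a => om (a + w) * a := by
    have h2 := om_cont
    fun_prop
  have eQ : Qcdd r c w = -(∫ a in (0:ℝ)..A, om (a - w) * nL r (c * a)) +
      (∫ a in (0:ℝ)..(r - w), om (a + w) * nL r (c * a)) -
      W r * (r * nL r (c * (r - w)) + c * nLd r (c * (r - w))) := by
    rw [hA]
    rfl
  rw [eQ]
  -- the crossing point
  obtain ⟨b, hb⟩ : ∃ b, b = max (r - w) (min A (1 + w)) := ⟨_, rfl⟩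
  have hb1 : r - w ≤ b := by rw [hb]; exact le_max_left _ _
  have hb2 : min A (1 + w) ≤ b := by rw [hb]; exact le_max_right _ _
  have hb0 : 0 < b := lt_of_lt_of_le (lt_min hA0 (by linarith)) hb2
  have hbA : b ≤ A := by
    rw [hb]
    exact max_le (by linarith) (min_le_left _ _)
  obtain ⟨k, hk⟩ : ∃ k, k = nL r (c * b) / b := ⟨_, rfl⟩
  have hcb : c * b ≤ 2 * r := by
    rw [← hcA]
    exact mul_le_mul_of_nonneg_left hbA hc0.le
  have hkA : Real.exp (-r ^ 2) / A ≤ k := by
    rw [hk, div_le_div_iff₀ hA0 hb0, ← nL_top r, ← hcA]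
    have := kap (r := r) hc0 hb0.le hbA hcA.le
    linarith
  have hlow : ∀ a, 0 ≤ a → a ≤ b → 0 ≤ nL r (c * a) - k * a := by
    intro a h1 h2
    have h3 := kap (r := r) hc0 h1 h2 hcb
    have h4 : k * a = a * nL r (c * b) / b := by rw [hk]; ring
    rw [h4, sub_nonneg, div_le_iff₀ hb0]
    linarith
  have hhigh : ∀ a, b ≤ a → a ≤ A → nL r (c * a) - k * a ≤ 0 := by
    intro a h1 h2
    have hca : c * a ≤ 2 * r := by
      rw [← hcA]
      exact mul_le_mul_of_nonneg_left h2 hc0.le
    have h3 := kap (r := r) hc0 hb0.le h1 hca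
    have h4 : k * a = a * nL r (c * b) / b := by rw [hk]; ring
    rw [h4, sub_nonpos, le_div_iff₀ hb0]
    linarith
  have hI1 : 0 ≤ ∫ a in (0:ℝ)..(r - w), (om (a - w) - om (a + w)) * (nL r (c * a) - k * a) := by
    apply intervalIntegral.integral_nonneg (by linarith)
    intro a ha
    apply mul_nonneg _ (hlow a ha.1 (by linarith [ha.2]))
    rw [sub_nonneg]
    apply om_le
    · have h3 := mul_nonneg ha.1 hw
      linarith [show (a + w) ^ 2 - (a - w) ^ 2 = 4 * (a * w) by ring]
    · have h3 : a + w ≤ 3 / 2 := by linarith [ha.2]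
      have h4 : 0 ≤ a + w := by linarith [ha.1]
      calc (a + w) ^ 2 ≤ (3 / 2) ^ 2 := by gcongr
        _ ≤ 3 := by norm_num
  have hI2 : 0 ≤ ∫ a in (r - w)..A, om (a - w) * (nL r (c * a) - k * a) := by
    apply intervalIntegral.integral_nonneg (by linarith)
    intro a ha
    have hWa := W_pos (a - w)
    rcases le_total a (1 + w) with h | h
    · have h5 : a ≤ b := le_trans (le_min ha.2 h) hb2
      apply mul_nonneg _ (hlow a (by linarith [ha.1]) h5)
      unfold om
      apply mul_nonneg _ hWa.le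
      nlinarith [ha.1, ha.2]
    · have h5 : b ≤ a := by
        rw [hb]
        exact max_le ha.1 (le_trans (min_le_right _ _) h)
      apply mul_nonneg_of_nonpos_of_nonpos _ (hhigh a h5 ha.2)
      unfold om
      apply mul_nonpos_of_nonpos_of_nonneg _ hWa.le
      nlinarith [ha.1, ha.2]
  have hT1 : ∀ p q : ℝ, (∫ a in p..q, om (a - w) * a) = Th w (q - w) - Th w (p - w) := by
    intro p q
    have h1 : ∀ a ∈ uIcc p q, HasDerivAt (fun a => Th w (a - w)) (om (a - w) * a) a := by
      intro a _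
      have h1 := (Th_deriv w (a - w)).comp a ((hasDerivAt_id a).sub_const w)
      refine h1.congr_deriv ?_
      ring
    exact intervalIntegral.integral_eq_sub_of_hasDerivAt h1 (hcont3.intervalIntegrable _ _)
  have hT2 : ∀ p q : ℝ, (∫ a in p..q, om (a + w) * a) = Th (-w) (q + w) - Th (-w) (p + w) := by
    intro p q
    have h1 : ∀ a ∈ uIcc p q, HasDerivAt (fun a => Th (-w) (a + w)) (om (a + w) * a) a := by
      intro a _
      have h1 := (Th_deriv (-w) (a + w)).comp a ((hasDerivAt_id a).add_const w)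
      refine h1.congr_deriv ?_
      ring
    exact intervalIntegral.integral_eq_sub_of_hasDerivAt h1 (hcont4.intervalIntegrable _ _)
  have hcont5 : Continuous fun a => k * (om (a - w) * a) := continuous_const.mul hcont3
  have hcont6 : Continuous fun a => k * (om (a + w) * a) := continuous_const.mul hcont4
  have hcont7 : Continuous fun a => om (a - w) * nL r (c * a) - om (a + w) * nL r (c * a) :=
    hcont1.sub hcont2
  have hcont8 : Continuous fun a => k * (om (a - w) * a) - k * (om (a + w) * a) :=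
    hcont5.sub hcont6
  have e1 : (∫ a in (0:ℝ)..(r - w), (om (a - w) - om (a + w)) * (nL r (c * a) - k * a)) =
      (∫ a in (0:ℝ)..(r - w), om (a - w) * nL r (c * a)) -
      (∫ a in (0:ℝ)..(r - w), om (a + w) * nL r (c * a)) -
      (k * (∫ a in (0:ℝ)..(r - w), om (a - w) * a) -
        k * (∫ a in (0:ℝ)..(r - w), om (a + w) * a)) := by
    rw [← intervalIntegral.integral_sub (hcont1.intervalIntegrable _ _)
      (hcont2.intervalIntegrable _ _), ← intervalIntegral.integral_const_mul,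
      ← intervalIntegral.integral_const_mul,
      ← intervalIntegral.integral_sub (hcont5.intervalIntegrable _ _)
      (hcont6.intervalIntegrable _ _),
      ← intervalIntegral.integral_sub (hcont7.intervalIntegrable _ _)
      (hcont8.intervalIntegrable _ _)]
    refine intervalIntegral.integral_congr fun a _ => ?_
    ring
  have e2 : (∫ a in (r - w)..A, om (a - w) * (nL r (c * a) - k * a)) =
      (∫ a in (r - w)..A, om (a - w) * nL r (c * a)) - k * (∫ a in (r - w)..A, om (a - w) * a) := by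
    rw [← intervalIntegral.integral_const_mul,
      ← intervalIntegral.integral_sub (hcont1.intervalIntegrable _ _)
      (hcont5.intervalIntegrable _ _)]
    refine intervalIntegral.integral_congr fun a _ => ?_
    ring
  have hsplit : (∫ a in (0:ℝ)..A, om (a - w) * nL r (c * a)) =
      (∫ a in (0:ℝ)..(r - w), om (a - w) * nL r (c * a)) +
        ∫ a in (r - w)..A, om (a - w) * nL r (c * a) :=
    (integral_add_adjacent_intervals (hcont1.intervalIntegrable _ _)
      (hcont1.intervalIntegrable _ _)).symm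
  rw [e1, hT1, hT2] at hI1
  rw [e2, hT1] at hI2
  obtain ⟨G, hG⟩ : ∃ G, G = (1 + A * (A - w)) * W (A - w) - (1 + r ^ 2 - w * r) * W r := ⟨_, rfl⟩
  have hGe : (Th w (r - w - w) - Th w (0 - w)) - (Th (-w) (r - w + w) - Th (-w) (0 + w)) +
      (Th w (A - w) - Th w (r - w - w)) = G := by
    rw [hG]
    have f1 : W (0 - w) = W w := by
      unfold W
      congr 1
      ring
    have f2 : r - w + w = r := by ring
    have f3 : 0 + w = w := by ring
    unfold Th
    rw [f1, f2, f3]
    ring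
  have hG0 : 0 ≤ G := by
    have h1 := G_ge (r := r) (A := A) (s := A - w) (by linarith) hA0.le
    have e3 : A - (A - w) = w := by ring
    rw [e3] at h1
    rw [hG]
    refine le_trans ?_ h1
    have h2 : 0 ≤ A - w := by linarith
    have h3 : 0 ≤ A - r := by linarith
    have h4 : 0 ≤ r - (A - w) := by linarith
    have h5 := W_pos r
    have h6 : 0 ≤ r + (A - w) := by linarith
    positivity
  rw [← hG, hsplit]
  have h7 : Real.exp (-r ^ 2) / A * G ≤ k * G := mul_le_mul_of_nonneg_right hkA hG0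
  have h8 : k * G = k * (Th w (r - w - w) - Th w (0 - w)) -
      k * (Th (-w) (r - w + w) - Th (-w) (0 + w)) + k * (Th w (A - w) - Th w (r - w - w)) := by
    rw [← hGe]
    ring
  linarith

/-- the lower bound for the last term -/
theorem L_ge {r c x : ℝ} (hr : 0 < r) (hr3 : r ≤ 3 / 2) (hc : 1 ≤ c) (hc2 : c ^ 2 ≤ 3)
    (hx0 : 0 ≤ x) (hx : x ≤ 2 * r * (c - 1)) :
    eL r x * (r * (1 + 2 * c) - 2 * c * x + x * (2 * r - x) * (2 * r - c * x) / 4) ≤
      r * nL r x + c * nLd r x := by
  have hc3 : c ≤ 1.73206 := le_of_sq_le_sq' (by norm_num; linarith) (by norm_num)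
  have hx2 : x ≤ 1.46412 * r := by nlinarith
  have hp := Pool.Agent.H106.TB.fL_ge (r := r) (x := x) (by linarith)
  rw [Pool.Agent.H106.TB.nL_eq, Pool.Agent.H106.TB.nLd_eq]
  have hk : 0 ≤ r * x / 2 + c * (2 - x ^ 2) / 4 := by
    have h1 : x * x ≤ 2 * r * (c - 1) * x := mul_le_mul_of_nonneg_right hx hx0
    have h2 : c * (x * x) ≤ c * (2 * r * (c - 1) * x) := mul_le_mul_of_nonneg_left h1 (by linarith)
    have h3 : r * x ≤ r * (1.46412 * r) := mul_le_mul_of_nonneg_left hx2 hr.le
    have h4 : r * r ≤ 2.25 := by nlinarith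
    have h5 : r * x ≤ 3.3 := by nlinarith
    have h6 : 0 ≤ r * x := mul_nonneg hr.le hx0
    have h7 : (c ^ 2 - c - 1) * (r * x) ≤ (2 - c) * (r * x) := by
      apply mul_le_mul_of_nonneg_right _ h6
      linarith
    have h8 : (2 - c) * (r * x) ≤ (2 - c) * 3.3 := by
      apply mul_le_mul_of_nonneg_left h5
      linarith
    have e0 : c * (2 * r * (c - 1) * x) = 2 * ((c ^ 2 - c - 1) * (r * x)) + 2 * (r * x) := by ring
    by_cases h9 : c ≤ 1.6
    · have h10 : (c ^ 2 - c - 1) * (r * x) ≤ 0 := by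
        apply mul_nonpos_of_nonpos_of_nonneg _ h6
        nlinarith
      have e1 : r * x / 2 + c * (2 - x ^ 2) / 4 =
        (2 * (r * x) + 2 * c - c * (x * x)) / 4 := by ring
      rw [e1]
      linarith
    · push Not at h9
      have e1 : r * x / 2 + c * (2 - x ^ 2) / 4 =
        (2 * (r * x) + 2 * c - c * (x * x)) / 4 := by ring
      rw [e1]
      linarith
  have h1 := mul_le_mul_of_nonneg_right hp hk
  have e1 : eL r x * (r * (1 + 2 * c) - 2 * c * x + x * (2 * r - x) * (2 * r - c * x) / 4) =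
      (2 * r - x) * eL r x * (r * x / 2 + c * (2 - x ^ 2) / 4) +
      eL r x * (r + c * (r - 3 * x / 2)) := by ring
  have e2 : r * (x / 2 * fL r x + eL r x) +
      c * (fL r x * (2 - x ^ 2) / 4 + eL r x * (r - 3 * x / 2)) =
      fL r x * (r * x / 2 + c * (2 - x ^ 2) / 4) + eL r x * (r + c * (r - 3 * x / 2)) := by ring
  rw [e1, e2]
  linarith

theorem yW_ge {y : ℝ} (h1 : 1 ≤ y) (h2 : y ≤ 3 / 2) : 0.48 ≤ y * W y := by
  have hm : AntitoneOn (fun y => y * W y) (Icc 1 (3 / 2)) := by
    refine antitoneOn_of_deriv_nonpos (convex_Icc _ _) ?_ ?_ ?_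
    · exact fun x _ => (yW_deriv x).continuousAt.continuousWithinAt
    · exact fun x _ => (yW_deriv x).differentiableAt.differentiableWithinAt
    · intro x hx
      rw [interior_Icc] at hx
      rw [(yW_deriv x).deriv]
      unfold om
      have h6 := W_pos x
      have h7 : 0 ≤ x ^ 2 - 1 := by nlinarith [hx.1, hx.2]
      have h8 := mul_nonneg h7 h6.le
      linarith
  have h6 := hm ⟨h1, h2⟩ ⟨by norm_num, le_rfl⟩ h2
  simp only at h6
  have h7 := W32
  linarith

theorem W_inv (y : ℝ) : W y * (1 + y ^ 2 / 2) ≤ 1 := by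
  unfold W
  have e : -y ^ 2 / 2 = -(y ^ 2 / 2) := by ring
  rw [e, Real.exp_neg, inv_mul_le_iff₀ (Real.exp_pos _), mul_one]
  have := Real.add_one_le_exp (y ^ 2 / 2)
  linarith

/-- the elementary inequality in `r` -/
theorem rho_ge {r : ℝ} (h1 : 1 ≤ r) (h2 : r ≤ 3 / 2) :
    Real.exp (-r ^ 2) * (0.8 * r - 0.24) ≤ 0.35 - 0.14 * r := by
  have h3 : 1.359 * (1 + r ^ 4) ≤ Real.exp (r ^ 2) := by
    have h4 : 1 + (r ^ 2 - 1) + (r ^ 2 - 1) ^ 2 / 2 ≤ Real.exp (r ^ 2 - 1) :=
      Real.quadratic_le_exp_of_nonneg (by nlinarith)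
    have h5 : Real.exp (r ^ 2) = Real.exp 1 * Real.exp (r ^ 2 - 1) := by
      rw [← Real.exp_add]
      congr 1
      ring
    have h6 := Real.exp_one_gt_d9
    have h7 : (2.718 : ℝ) ≤ Real.exp 1 := by linarith
    have h8 : 0 ≤ 1 + (r ^ 2 - 1) + (r ^ 2 - 1) ^ 2 / 2 := by
      nlinarith [sq_nonneg (r ^ 2 - 1), sq_nonneg r]
    rw [h5]
    calc 1.359 * (1 + r ^ 4) = 2.718 * (1 + (r ^ 2 - 1) + (r ^ 2 - 1) ^ 2 / 2) := by ring
      _ ≤ Real.exp 1 * Real.exp (r ^ 2 - 1) := by gcongr
  have h4 : 0.8 * r - 0.24 ≤ (0.35 - 0.14 * r) * (1.359 * (1 + r ^ 4)) := by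
    obtain ⟨h, rfl⟩ : ∃ h, r = 1 + h := ⟨r - 1, by ring⟩
    have a1 : 0 ≤ h := by linarith
    have a2 : h ≤ 1 / 2 := by linarith
    have e : (0.35 - 0.14 * (1 + h)) * (1.359 * (1 + (1 + h) ^ 4)) - (0.8 * (1 + h) - 0.24) =
      0.01078 - 0.03896 * h + h ^ 2 * (0.9513 - 0.47565 * h ^ 2 - 0.19026 * h ^ 3) := by ring
    have a3 : h ^ 2 ≤ (1 / 2) ^ 2 := by gcongr
    have a4 : h ^ 3 ≤ (1 / 2) ^ 3 := by gcongr
    have a5 : h ^ 2 * 0.8 ≤ h ^ 2 * (0.9513 - 0.47565 * h ^ 2 - 0.19026 * h ^ 3) := by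
      apply mul_le_mul_of_nonneg_left _ (sq_nonneg h)
      norm_num at a3 a4
      linarith
    have a6 : 0 ≤ 0.01078 - 0.03896 * h + h ^ 2 * 0.8 := by
      nlinarith [sq_nonneg (h - 0.025)]
    linarith
  have h5 : 0.8 * r - 0.24 ≤ (0.35 - 0.14 * r) * Real.exp (r ^ 2) := by
    refine h4.trans (mul_le_mul_of_nonneg_left h3 (by linarith))
  have h6 : Real.exp (-r ^ 2) * Real.exp (r ^ 2) = 1 := by
    rw [← Real.exp_add]
    simp
  calc Real.exp (-r ^ 2) * (0.8 * r - 0.24) ≤
        Real.exp (-r ^ 2) * ((0.35 - 0.14 * r) * Real.exp (r ^ 2)) :=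
        mul_le_mul_of_nonneg_left h5 (Real.exp_pos _).le
    _ = (0.35 - 0.14 * r) * (Real.exp (-r ^ 2) * Real.exp (r ^ 2)) := by ring
    _ = 0.35 - 0.14 * r := by rw [h6, mul_one]

/-- inequality in `r, c, y`, where `x = r (1 + y)` -/
theorem B_bound {r c y : ℝ} (h1 : 1 ≤ r) (h2 : r ≤ 3 / 2) (hc : 1 ≤ c) (hc3 : c ≤ 1.73206)
    (hy0 : 0 ≤ y) (hy1 : y ≤ 2 * c - 3) :
    r * (2 * c * y - 1 + r ^ 2 * ((1 - y ^ 2) * (c * y + c - 2)) / 4) ≤
      (1 + r ^ 2 * y ^ 2 / 2) * (0.8 * r - 0.13) := by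
  have hy2 : y ≤ 0.46412 := by linarith
  have a0 : 0 ≤ 1 - y ^ 2 := by nlinarith
  have a1 : 2 * c * y - 1 ≤ 3.46412 * y - 1 := by nlinarith
  have a2 : (1 - y ^ 2) * (c * y + c - 2) ≤ (1 - y ^ 2) * (1.73206 * y - 0.26794) := by
    apply mul_le_mul_of_nonneg_left _ a0
    nlinarith
  have a3 : (1 - y ^ 2) * (1.73206 * y - 0.26794) ≤ 0.4206 := by
    have b1 : 0 ≤ (0.46412 - y) * (1.73206 + 0.26794 * (y + 0.46412) -
        1.73206 * (y ^ 2 + y * 0.46412 + 0.46412 ^ 2)) := by
      apply mul_nonneg (by linarith)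
      have b2 : y ^ 2 ≤ 0.46412 ^ 2 := by gcongr
      norm_num at b2 ⊢
      nlinarith
    nlinarith
  have a4 : r ^ 2 * ((1 - y ^ 2) * (c * y + c - 2)) ≤ r ^ 2 * 0.4206 :=
    mul_le_mul_of_nonneg_left (a2.trans a3) (sq_nonneg r)
  have a5 : r * (2 * c * y - 1 + r ^ 2 * ((1 - y ^ 2) * (c * y + c - 2)) / 4) ≤
      r * (3.46412 * y - 1 + r ^ 2 * 0.10515) := by
    apply mul_le_mul_of_nonneg_left _ (by linarith)
    linarith
  refine a5.trans ?_
  obtain ⟨z, rfl⟩ : ∃ z, y = 0.46412 - z := ⟨0.46412 - y, by ring⟩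
  have hz : 0 ≤ z := by linarith
  have b1 : 0 ≤ 0.8 * r - 0.13 := by linarith
  have b2 : (1 + r ^ 2 * (0.2154 - 0.92824 * z) / 2) * (0.8 * r - 0.13) ≤
      (1 + r ^ 2 * (0.46412 - z) ^ 2 / 2) * (0.8 * r - 0.13) := by
    apply mul_le_mul_of_nonneg_right _ b1
    have : r ^ 2 * (0.2154 - 0.92824 * z) ≤ r ^ 2 * (0.46412 - z) ^ 2 := by
      apply mul_le_mul_of_nonneg_left _ (sq_nonneg r)
      nlinarith [sq_nonneg z]
    linarith
  refine le_trans ?_ b2
  have k1 : 0 ≤ z * (r * (3.46412 - 0.46412 * (r * (0.8 * r - 0.13)))) := by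
    apply mul_nonneg hz
    apply mul_nonneg (by linarith)
    have : r * (0.8 * r - 0.13) ≤ 3 / 2 * 1.07 := by
      apply mul_le_mul h2 (by linarith) b1 (by norm_num)
    linarith
  have k2 : 0 ≤ (1 + 0.1077 * r ^ 2) * (0.8 * r - 0.13) - r * (0.607768 + 0.10515 * r ^ 2) := by
    nlinarith [mul_nonneg (sub_nonneg.2 h1) (sub_nonneg.2 h2),
      mul_nonneg (mul_nonneg (sub_nonneg.2 h1) (sub_nonneg.2 h2)) (show 0 ≤ r by linarith)]
  nlinarith

/-- the large values of `w` -/
theorem case2 {r c w : ℝ} (hr : 1 ≤ r) (hr3 : r ≤ 3 / 2) (hc1 : 1.4142 ≤ c) (hc2 : c ^ 2 ≤ 3)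
    (hwr : w ≤ r) (hy0 : r - 2 * w < -1) : Qcdd r c w ≤ 0 := by
  have hc3 : c ≤ 1.73206 := le_of_sq_le_sq' (by norm_num; linarith) (by norm_num)
  have hc0 : 0 < c := by linarith
  have hw1 : 1 < w := by linarith
  have hw : 0 ≤ w := by linarith
  obtain ⟨A, hA⟩ : ∃ A, A = 2 * r / c := ⟨_, rfl⟩
  have hcA : c * A = 2 * r := by
    rw [hA]
    field_simp
  have hrA : r ≤ A := by
    rw [hA, le_div_iff₀ hc0]
    nlinarith
  have hA2 : A ≤ 3 / 2 * r := by
    rw [hA, div_le_iff₀ hc0]
    nlinarith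
  have hn0 : ∀ a, 0 ≤ a → a ≤ A → 0 ≤ nL r (c * a) := by
    intro a h1 h2
    refine nL_nonneg (by positivity) ?_
    rw [← hcA]
    gcongr
  have hcont1 : Continuous fun a => om (a - w) * nL r (c * a) := by
    have h2 := om_cont
    have h3 := nL_cont r
    fun_prop
  obtain ⟨x, hx⟩ : ∃ x, x = c * (r - w) := ⟨_, rfl⟩
  have hx0 : 0 ≤ x := by
    rw [hx]
    exact mul_nonneg hc0.le (by linarith)
  have hWr := W_pos r
  have eQ : Qcdd r c w = -(∫ a in (0:ℝ)..A, om (a - w) * nL r (c * a)) +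
      (∫ a in (0:ℝ)..(r - w), om (a + w) * nL r (c * a)) -
      W r * (r * nL r x + c * nLd r x) := by
    rw [hA, hx]
    rfl
  rw [eQ]
  have hI2 : (∫ a in (0:ℝ)..(r - w), om (a + w) * nL r (c * a)) ≤ 0 := by
    have h1 : 0 ≤ ∫ a in (0:ℝ)..(r - w), -(om (a + w) * nL r (c * a)) := by
      apply intervalIntegral.integral_nonneg (by linarith)
      intro a ha
      have h2 := hn0 a ha.1 (by linarith [ha.2])
      have h3 : om (a + w) ≤ 0 := by
        unfold om
        have h4 := W_pos (a + w)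
        have h5 : 0 ≤ (a + w) ^ 2 - 1 := by
          have h7 : 1 ≤ a + w := by linarith [ha.1]
          have h8 : (1 : ℝ) ^ 2 ≤ (a + w) ^ 2 := by gcongr
          linarith
        have h6 := mul_nonneg h5 h4.le
        linarith
      have := mul_nonneg (neg_nonneg.2 h3) h2
      linarith
    rw [intervalIntegral.integral_neg] at h1
    linarith
  have hsplit : (∫ a in (0:ℝ)..A, om (a - w) * nL r (c * a)) =
      (∫ a in (0:ℝ)..(w - 1), om (a - w) * nL r (c * a)) +
        ∫ a in (w - 1)..A, om (a - w) * nL r (c * a) :=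
    (integral_add_adjacent_intervals (hcont1.intervalIntegrable _ _)
      (hcont1.intervalIntegrable _ _)).symm
  have hI1 : 0 ≤ ∫ a in (w - 1)..A, om (a - w) * nL r (c * a) := by
    refine abel hc0 (by linarith) (by linarith) hcA.le ?_
    intro a ha
    have e0 : w - 1 - w = -1 := by ring
    rw [e0]
    refine Th_ge hw le_rfl (by linarith) ?_ (by linarith [ha.1]) (by linarith [ha.2])
    have h3 := W32
    have h4 : (3 * w / 2 + 13 / 4) * 0.32 ≤ (3 * w / 2 + 13 / 4) * W (3 / 2) := by gcongr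
    refine le_trans ?_ h4
    unfold Th
    have hW0 := W_pos (-1)
    have hW1 := W_le_one (-1)
    have h5 : (w * (-1) + 1 + (-1) ^ 2) * W (-1) ≤ 1 := by
      calc (w * (-1) + 1 + (-1) ^ 2) * W (-1) ≤ 1 * W (-1) := by
            apply mul_le_mul_of_nonneg_right _ hW0.le
            linarith
        _ ≤ 1 := by linarith
    linarith
  have hI0 : -(0.18 : ℝ) ≤ ∫ a in (0:ℝ)..(w - 1), om (a - w) * nL r (c * a) := by
    have h1 : (∫ a in (0:ℝ)..(w - 1), om (a - w) * 1.38) ≤
        ∫ a in (0:ℝ)..(w - 1), om (a - w) * nL r (c * a) := by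
      apply intervalIntegral.integral_mono_on (by linarith)
      · have h2 := om_cont
        exact (by fun_prop : Continuous fun a => om (a - w) * 1.38).intervalIntegrable _ _
      · exact hcont1.intervalIntegrable _ _
      · intro a ha
        have h3 : om (a - w) ≤ 0 := by
          unfold om
          have h4 := W_pos (a - w)
          have h5 : 0 ≤ (a - w) ^ 2 - 1 := by
            have h7 : 1 ≤ w - a := by linarith [ha.2]
            have h8 : (1 : ℝ) ^ 2 ≤ (w - a) ^ 2 := by gcongr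
            have e9 : (w - a) ^ 2 = (a - w) ^ 2 := by ring
            rw [e9] at h8
            linarith
          have h6 := mul_nonneg h5 h4.le
          linarith
        have h7 : nL r (c * a) ≤ 1.38 := by
          have h8 : a ≤ 1 / 2 := by linarith [ha.2]
          have hz : 0 ≤ c * a := mul_nonneg hc0.le ha.1
          have hz3 : c * a ≤ 0.8661 := by nlinarith [ha.1]
          obtain ⟨z, hzz⟩ : ∃ z, z = c * a := ⟨_, rfl⟩
          rw [← hzz] at hz hz3 ⊢
          unfold nL fL
          rw [E_eq]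
          have g1 : Real.exp (-(r ^ 2 / 2 + (r - z) ^ 2 / 2)) ≤ 0.6066 := by
            refine le_trans (Real.exp_le_exp.2 ?_) eh
            nlinarith [sq_nonneg (r - z)]
          have g2 : I2 (r - z / 2) ≤ Real.sqrt Real.pi := I2_le_pi (by linarith)
          have g3 : Real.sqrt Real.pi ≤ 1.775 := by
            rw [Real.sqrt_le_left (by norm_num)]
            have := Real.pi_lt_d2
            norm_num at this ⊢
            linarith
          have g4 : Real.exp (-z ^ 2 / 4) ≤ 1 := by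
            rw [Real.exp_le_one_iff]
            nlinarith [sq_nonneg z]
          have g5 : 0 ≤ I2 (r - z / 2) := by
            unfold I2
            exact intervalIntegral.integral_nonneg (by linarith) fun p _ => (Real.exp_pos _).le
          have g6 : Real.exp (-z ^ 2 / 4) * I2 (r - z / 2) ≤ 1.775 := by
            calc Real.exp (-z ^ 2 / 4) * I2 (r - z / 2) ≤ 1 * I2 (r - z / 2) := by gcongr
              _ ≤ 1.775 := by linarith
          have g7 : z / 2 * (Real.exp (-z ^ 2 / 4) * I2 (r - z / 2)) ≤ 0.43305 * 1.775 := by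
            have g8 : 0 ≤ Real.exp (-z ^ 2 / 4) * I2 (r - z / 2) := mul_nonneg (Real.exp_pos _).le g5
            have g9 : z / 2 ≤ 0.43305 := by linarith
            gcongr
          linarith
        have h8 := mul_nonneg (neg_nonneg.2 h3) (sub_nonneg.2 h7)
        have e9 : -om (a - w) * (1.38 - nL r (c * a)) =
            om (a - w) * nL r (c * a) - om (a - w) * 1.38 := by
          ring
        rw [e9] at h8
        linarith
    refine le_trans ?_ h1
    rw [intervalIntegral.integral_mul_const]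
    have h2 : (∫ a in (0:ℝ)..(w - 1), om (a - w)) = -1 * W (-1) - (-w) * W (-w) := by
      rw [intervalIntegral.integral_comp_sub_right (fun y => om y) w]
      have e1 : (0 : ℝ) - w = -w := by ring
      have e2 : w - 1 - w = -1 := by ring
      rw [e1, e2]
      exact intervalIntegral.integral_eq_sub_of_hasDerivAt (fun y _ => yW_deriv y)
        (om_cont.intervalIntegrable _ _)
    have h3 : W (-1) = W 1 := by unfold W; norm_num
    have h4 : W (-w) = W w := by unfold W; congr 1; ring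
    have h5 : 0.48 ≤ w * W w := yW_ge hw1.le (by linarith)
    have h6 := W1
    rw [h2, h3, h4]
    have e9 : (-1 * W 1 - -w * W w) * 1.38 = (w * W w - W 1) * 1.38 := by ring
    rw [e9]
    have h7 : -0.1266 ≤ w * W w - W 1 := by linarith
    have h8 := mul_le_mul_of_nonneg_right h7 (show (0 : ℝ) ≤ 1.38 by norm_num)
    linarith
  have hLL : 0.2 ≤ W r * (r * nL r x + c * nLd r x) := by
    have hxs : x ≤ 0.86603 * (r - 1) := by
      have h1 : r - w ≤ (r - 1) / 2 := by linarith
      have h2 : c * (r - w) ≤ 1.73206 * ((r - 1) / 2) := by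
        apply mul_le_mul hc3 h1 (by linarith) (by norm_num)
      rw [hx]
      linarith
    have hx4 : x ≤ 0.433015 := by linarith
    have hx5 : x ^ 2 ≤ 3 / 16 + 0.0001 := by
      have h2 : x ^ 2 ≤ 0.433015 ^ 2 := by gcongr
      norm_num at h2 ⊢
      linarith
    have hq : 1 ≤ r - x / 2 := by linarith
    have h1 := I2_ge hq
    have h2 : 0.95 ≤ Real.exp (-x ^ 2 / 4) := by
      have := Real.add_one_le_exp (-x ^ 2 / 4)
      linarith
    have h3 : 0.95 * (4 / 3) ≤ fL r x := by
      unfold fL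
      gcongr
    have h4 : 0.62 ≤ r * x / 2 + c * (2 - x ^ 2) / 4 := by
      have h5 : 0 ≤ r * x / 2 := by positivity
      have h6 : 1.4142 * (2 - x ^ 2) ≤ c * (2 - x ^ 2) := by
        apply mul_le_mul_of_nonneg_right hc1
        linarith
      linarith
    have hb2 : 0 ≤ r + c * (r - 3 * x / 2) := by
      have h5 : 0 ≤ r - 3 * x / 2 := by linarith
      positivity
    have hE0 : 0 ≤ Real.exp (-x ^ 2 / 4) * Real.exp (-(r - x / 2) ^ 2) := by positivity
    have h5 : 0.95 * (4 / 3) * 0.62 ≤ r * nL r x + c * nLd r x := by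
      rw [last_eq]
      have h6 : 0.95 * (4 / 3) * 0.62 ≤ fL r x * (r * x / 2 + c * (2 - x ^ 2) / 4) := by
        gcongr
      have h7 := mul_nonneg hE0 hb2
      linarith
    have h6 : 0.32 ≤ W r := by
      refine W32.trans ?_
      unfold W
      apply Real.exp_le_exp.2
      nlinarith
    calc (0.2 : ℝ) ≤ 0.32 * (0.95 * (4 / 3) * 0.62) := by norm_num
      _ ≤ W r * (r * nL r x + c * nLd r x) := by gcongr
  linarith

theorem B_small {r c y : ℝ} (hr0 : 0 < r) (hr3 : r ≤ 3 / 2) (hc0 : 0 < c) (hc : 1 ≤ c)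
    (hc2 : c ^ 2 ≤ 3) (hc3 : c ≤ 1.73206) (hy0 : 0 ≤ y) (hy2 : 1 + y ≤ 0.74 * c) :
    r * (2 * c * y - 1 + r ^ 2 * ((1 - y ^ 2) * (c * y + c - 2)) / 4) ≤ 0.15 := by
  have a1 : 2 * c * y - 1 ≤ -0.024 := by
    have b1 : 2 * c * y ≤ 2 * c * (0.74 * c - 1) := by
      apply mul_le_mul_of_nonneg_left _ (by positivity)
      linarith
    nlinarith
  have a2 : (1 - y ^ 2) * (c * y + c - 2) ≤ 0.22 := by
    have b1 : c * (1 + y) ≤ c * (0.74 * c) := mul_le_mul_of_nonneg_left hy2 hc0.le
    have b2 : c * y + c - 2 ≤ 0.22 := by nlinarith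
    have b3 : y ≤ 1 := by linarith
    have b4 : 0 ≤ 1 - y ^ 2 := by nlinarith
    have b5 : (1 - y ^ 2) * (c * y + c - 2) ≤ (1 - y ^ 2) * 0.22 :=
      mul_le_mul_of_nonneg_left b2 b4
    have b6 := sq_nonneg y
    linarith
  have a3 : r ^ 2 * ((1 - y ^ 2) * (c * y + c - 2)) ≤ r ^ 2 * 0.22 :=
    mul_le_mul_of_nonneg_left a2 (sq_nonneg r)
  have a4 : r ^ 2 ≤ 2.25 := by nlinarith
  have a5 : 2 * c * y - 1 + r ^ 2 * ((1 - y ^ 2) * (c * y + c - 2)) / 4 ≤ 0.09975 := by
    linarith
  calc r * (2 * c * y - 1 + r ^ 2 * ((1 - y ^ 2) * (c * y + c - 2)) / 4) ≤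
      r * 0.09975 := mul_le_mul_of_nonneg_left a5 hr0.le
    _ ≤ 0.15 := by linarith

theorem As_ge {r c A s : ℝ} (hr : 1 ≤ r) (hc0 : 0 < c) (hc2 : c ^ 2 ≤ 3) (hc3 : c ≤ 1.73206)
    (hcA : c * A = 2 * r) (h7 : r * (3 - c) ≤ c * s) : 0.8 ≤ A * s := by
  have hr0 : 0 < r := by linarith
  have h8 : c * c * 0.8 ≤ c * c * (A * s) := by
    have e4 : c * c * (A * s) = (c * A) * (c * s) := by ring
    rw [e4, hcA]
    have h9 : 2 * r * (r * (3 - c)) ≤ 2 * r * (c * s) :=
      mul_le_mul_of_nonneg_left h7 (by positivity)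
    have h10 : 1 * 1 ≤ r * r := mul_le_mul hr hr (by norm_num) hr0.le
    have h11 : 1 * (3 - c) ≤ (r * r) * (3 - c) := by
      apply mul_le_mul_of_nonneg_right _ (by linarith)
      linarith
    nlinarith
  exact le_of_mul_le_mul_left h8 (by positivity)

theorem cutup3 : S_cutup3 := by
  intro r c w hr hr3 hc hc1 hc2 hwr hcut
  have hc0 : 0 < c := by linarith
  have hr0 : 0 < r := by linarith
  have hc3 : c ≤ 1.73206 := le_of_sq_le_sq' (by norm_num; linarith) (by norm_num)
  have hc4 : 1.4142 ≤ c := le_of_sq_le_sq' (by norm_num; linarith) hc0.le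
  have hrw : 0 < r + w := by
    by_contra h
    push Not at h
    have := mul_nonpos_of_nonneg_of_nonpos hc0.le h
    linarith
  have hw15 : 0.1546 * r ≤ w := by
    have h1 : c * (r + w) ≤ 1.73206 * (r + w) := mul_le_mul_of_nonneg_right hc3 hrw.le
    linarith
  have hw : 0 ≤ w := by linarith
  rcases lt_or_ge (r - 2 * w) (-1) with h2 | h1
  · have h3 := case2 hr hr3 hc4 hc2 hwr h2
    exact ⟨by linarith, fun _ => h3⟩
  obtain ⟨A, hA⟩ : ∃ A, A = 2 * r / c := ⟨_, rfl⟩
  have hcA : c * A = 2 * r := by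
    rw [hA]
    field_simp
  have hAw : A ≤ r + w := by
    rw [hA, div_le_iff₀ hc0]
    linarith
  have hrA : 1.1546 * r ≤ A := by
    rw [hA, le_div_iff₀ hc0]
    nlinarith
  have hA0 : 0 < A := by linarith
  have hQ := Q_le hr hr3 hc (by linarith) hw hwr hcut h1 hA
  obtain ⟨x, hx⟩ : ∃ x, x = c * (r - w) := ⟨_, rfl⟩
  have hx0 : 0 ≤ x := by
    rw [hx]
    exact mul_nonneg hc0.le (by linarith)
  have hx1 : x ≤ 2 * r * (c - 1) := by
    rw [hx]
    nlinarith
  have hL := L_ge hr0 hr3 hc hc2 hx0 hx1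
  obtain ⟨B, hB⟩ : ∃ B, B = r * (1 + 2 * c) - 2 * c * x +
    x * (2 * r - x) * (2 * r - c * x) / 4 := ⟨_, rfl⟩
  obtain ⟨E, hE⟩ : ∃ E, E = Real.exp (-r ^ 2) := ⟨_, rfl⟩
  have hE0 : 0 < E := by rw [hE]; exact Real.exp_pos _
  obtain ⟨s, hs⟩ : ∃ s, s = A - w := ⟨_, rfl⟩
  have hs0 : 0 ≤ s := by linarith
  have hsr : s ≤ r := by linarith
  obtain ⟨g, hg⟩ : ∃ g, g = (r + s) * ((A - r) + (1 + A * s) * (r - s) / 2) := ⟨_, rfl⟩
  have hWr := W_pos r
  have hWx := W_pos (r - x)
  have hWx1 : W (r - x) ≤ 1 := Pool.Agent.H628.TCcutneg.W_le_one _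
  rw [← hB] at hL
  rw [← hx, ← hE, ← hs] at hQ
  have hG := G_ge (r := r) (A := A) (s := s) hs0 hA0.le
  have e3 : A - s = w := by rw [hs]; ring
  rw [e3, ← hg] at hG
  have hg0 : 0 ≤ g := by
    rw [hg]
    have h4 : 0 ≤ A - r := by linarith
    have h5 : 0 ≤ r - s := by linarith
    positivity
  have hQ2 : Qcdd r c w ≤ -(E * (W r * g / A)) - E * (W (r - x) * B) := by
    have h3 : W r * (eL r x * B) = E * (W (r - x) * B) := by
      rw [← mul_assoc, W_eL_eq, ← hE]
      ring
    have h4 := mul_le_mul_of_nonneg_left hL hWr.le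
    rw [h3] at h4
    have h5 : E / A * (W r * g) ≤ E / A * ((1 + A * s) * W s - (1 + r ^ 2 - w * r) * W r) :=
      mul_le_mul_of_nonneg_left hG (by positivity)
    have h6 : E / A * (W r * g) = E * (W r * g / A) := by ring
    linarith
  by_cases hB0 : 0 ≤ B
  · have h3 : Qcdd r c w ≤ 0 := by
      have h4 : 0 ≤ E * (W r * g / A) := by positivity
      have h5 : 0 ≤ E * (W (r - x) * B) := by positivity
      linarith
    exact ⟨by linarith, fun _ => h3⟩
  push Not at hB0
  have hrx : r < x := by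
    by_contra h
    push Not at h
    have h3 : c * x ≤ 1.73206 * r := mul_le_mul hc3 h hx0 (by norm_num)
    have h4 : 0 ≤ x * (2 * r - x) * (2 * r - c * x) / 4 := by
      have h5 : 0 ≤ 2 * r - x := by linarith
      have h6 : 0 ≤ 2 * r - c * x := by linarith
      positivity
    have h7 : c * x ≤ c * r := mul_le_mul_of_nonneg_left h hc0.le
    rw [hB] at hB0
    linarith
  obtain ⟨y, hy⟩ : ∃ y, y = x / r - 1 := ⟨_, rfl⟩
  have hxy : x = r * (1 + y) := by
    rw [hy]
    field_simp
    ring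
  have hy0 : 0 ≤ y := by
    rw [hy, sub_nonneg, le_div_iff₀ hr0]
    linarith
  have hy1 : y ≤ 2 * c - 3 := by
    have h3 : r * (1 + y) ≤ r * (2 * c - 2) := by
      rw [← hxy]
      linarith
    have h4 := le_of_mul_le_mul_left h3 hr0
    linarith
  have hBy : -B = r * (2 * c * y - 1 + r ^ 2 * ((1 - y ^ 2) * (c * y + c - 2)) / 4) := by
    rw [hB, hxy]
    ring
  have hcrs : c * (r + s) = 2 * r + x := by
    rw [hs, hx]
    linarith
  have hrWr := yW_ge hr hr3
  constructor
  · have hb := B_bound hr hr3 hc hc3 hy0 hy1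
    rw [← hBy] at hb
    have h3 : W (r - x) * (-B) ≤ 0.8 * r - 0.13 := by
      have h4 := mul_le_mul_of_nonneg_left hb hWx.le
      have h5 := W_inv (r - x)
      have h6 : (r - x) ^ 2 = r ^ 2 * y ^ 2 := by
        rw [hxy]
        ring
      rw [h6] at h5
      have h7 := mul_le_mul_of_nonneg_right h5 (show 0 ≤ 0.8 * r - 0.13 by linarith)
      have h8 : W (r - x) * ((1 + r ^ 2 * y ^ 2 / 2) * (0.8 * r - 0.13)) =
          W (r - x) * (1 + r ^ 2 * y ^ 2 / 2) * (0.8 * r - 0.13) := by ring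
      linarith
    have h4 : 0.11 ≤ W r * g / A := by
      rw [le_div_iff₀ hA0]
      have h5 : (r + s) * (A - r) ≤ g := by
        rw [hg]
        apply mul_le_mul_of_nonneg_left _ (by linarith)
        have h6 : 0 ≤ r - s := by linarith
        have h7 : 0 ≤ (1 + A * s) * (r - s) / 2 := by positivity
        linarith
      have h6 : W r * ((r + s) * (A - r)) ≤ W r * g := mul_le_mul_of_nonneg_left h5 hWr.le
      refine le_trans ?_ h6
      have h7 : c * c * (0.11 * A) ≤ c * c * (W r * ((r + s) * (A - r))) := by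
        have e4 : c * c * (0.11 * A) = 0.22 * r * c := by
          have : c * c * (0.11 * A) = 0.11 * c * (c * A) := by ring
          rw [this, hcA]
          ring
        have e5 : c * c * (W r * ((r + s) * (A - r))) =
            (r * W r) * ((2 * r + x) * (2 - c)) := by
          have : c * c * (W r * ((r + s) * (A - r))) =
            W r * ((c * (r + s)) * (c * A - c * r)) := by ring
          rw [this, hcA, hcrs]
          ring
        rw [e4, e5]
        have h8 : 0 ≤ (3 * r) * (2 - c) := by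
          have : 0 ≤ 2 - c := by linarith
          positivity
        have h9 : (3 * r) * (2 - c) ≤ (2 * r + x) * (2 - c) := by
          apply mul_le_mul_of_nonneg_right _ (by linarith)
          linarith
        have h10 : 0.48 * ((3 * r) * (2 - c)) ≤ (r * W r) * ((2 * r + x) * (2 - c)) := by
          apply mul_le_mul hrWr h9 h8 (by positivity)
        refine le_trans ?_ h10
        have h11 : 0 ≤ r * (2.88 - 1.66 * c) := mul_nonneg hr0.le (by linarith)
        linarith
      exact le_of_mul_le_mul_left h7 (by positivity)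
    have h5 := rho_ge hr hr3
    rw [← hE] at h5
    have h6 : E * 0.11 ≤ E * (W r * g / A) := mul_le_mul_of_nonneg_left h4 hE0.le
    have h7 : E * (W (r - x) * (-B)) ≤ E * (0.8 * r - 0.13) := mul_le_mul_of_nonneg_left h3 hE0.le
    have e6 : E * (W (r - x) * (-B)) = -(E * (W (r - x) * B)) := by ring
    rw [e6] at h7
    linarith
  · intro hw26
    have h3 : -B ≤ 0.15 := by
      rw [hBy]
      have hy2 : 1 + y ≤ 0.74 * c := by
        have h4 : r * (1 + y) ≤ r * (0.74 * c) := by
          rw [← hxy, hx]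
          have h5 : c * (r - w) ≤ c * (0.74 * r) := by
            apply mul_le_mul_of_nonneg_left _ hc0.le
            linarith
          linarith
        exact le_of_mul_le_mul_left h4 hr0
      exact B_small hr0 hr3 hc0 hc hc2 hc3 hy0 hy2
    have h4 : 0.15 ≤ W r * g / A := by
      rw [le_div_iff₀ hA0]
      have h5 : 1.5 * A ≤ r + s := by
        have h6 : c * (1.5 * A) ≤ c * (r + s) := by
          rw [hcrs]
          have : c * (1.5 * A) = 1.5 * (c * A) := by ring
          rw [this, hcA]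
          linarith
        exact le_of_mul_le_mul_left h6 hc0
      have h6 : 0.8 ≤ A * s := by
        have h7 : r * (3 - c) ≤ c * s := by
          have : c * s = c * (r + s) - c * r := by ring
          rw [this, hcrs]
          linarith
        exact As_ge hr hc0 hc2 hc3 hcA h7
      have h7 : 0.234 * r ≤ (A - r) + (1 + A * s) * (r - s) / 2 := by
        have h8 : 0.9 * (r - s) ≤ (1 + A * s) / 2 * (r - s) := by
          apply mul_le_mul_of_nonneg_right _ (by linarith)
          linarith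
        have e4 : (1 + A * s) * (r - s) / 2 = (1 + A * s) / 2 * (r - s) := by ring
        rw [e4]
        linarith
      have h8 : 1.5 * A * (0.234 * r) ≤ g := by
        rw [hg]
        apply mul_le_mul h5 h7 (by positivity) (by linarith)
      have h9 : W r * (1.5 * A * (0.234 * r)) ≤ W r * g := mul_le_mul_of_nonneg_left h8 hWr.le
      refine le_trans ?_ h9
      have e4 : W r * (1.5 * A * (0.234 * r)) = 0.351 * (r * W r) * A := by ring
      rw [e4]
      apply mul_le_mul_of_nonneg_right _ hA0.le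
      linarith
    have h5 : W (r - x) * (-B) ≤ 0.15 := by
      have h6 : W (r - x) * (-B) ≤ 1 * (-B) := by
        apply mul_le_mul_of_nonneg_right hWx1
        linarith
      linarith
    have h6 : E * 0.15 ≤ E * (W r * g / A) := mul_le_mul_of_nonneg_left h4 hE0.le
    have h7 : E * (W (r - x) * (-B)) ≤ E * 0.15 := mul_le_mul_of_nonneg_left h5 hE0.le
    have e6 : E * (W (r - x) * (-B)) = -(E * (W (r - x) * B)) := by ring
    rw [e6] at h7
    linarith

end Pool.Agent.H106.TEcutup3
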