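import Pool.Agent.H812.Tm.Spec1
import Pool.Graph.R_seed8.W811.Stu.Grow
import Pool.Graph.R_seed8.W571.Stu.Rev

set_option autoImplicit false

open Real Filter Topology
open scoped ContDiff

namespace Pool.Agent.H106.Tm

open Pool.Agent.W811.Stu Pool.Agent.H812.Tm

theorem abs_dt {δ : ℝ} (hdt : SDt) (d : ℕ → ℕ) (m : ℕ) {v : ℝ × ℝ} (hv : v ∈ U) :
    |dt (Yf δ d m) v| = |Vy d m (ze δ v)| / √(1 - v.1 ^ 2) := by
  rw [(hdt δ d m).2.2 v hv, abs_div, abs_neg, abs_of_nonneg (Real.sqrt_nonneg _)]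

theorem sqrt_pos {v : ℝ × ℝ} (hv : v ∈ U) : 0 < √(1 - v.1 ^ 2) := by
  apply Real.sqrt_pos.2
  have h1 : |v.1| < 1 := hv
  have h2 : v.1 ^ 2 < 1 := by
    rw [← sq_abs]
    have := abs_nonneg v.1
    nlinarith
  linarith

theorem sqrt_le_one (v : ℝ × ℝ) : √(1 - v.1 ^ 2) ≤ 1 := by
  rw [Real.sqrt_le_one]
  nlinarith [sq_nonneg v.1]

theorem tLow (hC : SCoord) (hdt : SDt) : SLow := by
  intro δ κ hδ hκ0 hκ
  obtain ⟨c0, hc0, h⟩ := tLB δ κ hδ hκ0 hκ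
  refine ⟨c0, hc0, ?_⟩
  intro d hd m hm v hv hY
  have h1 := h d hd m hm (ze δ v) ((hC δ).1 v hv) (le_of_lt hv) hY
  rw [abs_dt hdt d m hv]
  refine h1.trans ?_
  rw [le_div_iff₀ (sqrt_pos hv)]
  exact mul_le_of_le_one_right (abs_nonneg _) (sqrt_le_one v)

theorem dRk_y (k : ℕ) (p u : P3) : (dRk k p u).y = u.y := by
  induction k with
  | zero => rfl
  | succ k ih => exact ih

theorem tRev (hC : SCoord) (hdt : SDt) : SRev := by
  intro δ κ hδ hκ0 hκ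
  have hκ2 : κ ^ 2 < 1 + δ ^ 2 := by
    rw [← cc_sq]
    have := cc_pos δ
    nlinarith
  refine ⟨|N0 δ (κ ^ 2)| + 1, by positivity, ?_⟩
  intro d hd j k hj hk v hv hT
  obtain ⟨j', rfl⟩ : ∃ j', j = j' + 1 := ⟨j - 1, by omega⟩
  obtain ⟨k', rfl⟩ : ∃ k', k = k' + 1 := ⟨k - 1, by omega⟩
  obtain ⟨w, hw⟩ := Wd_head d hd j'
  have hW : Wd d (j' + 1) ++ List.replicate (k' + 1) Mv.R =
      Mv.R :: ((w ++ List.replicate k' Mv.R) ++ [Mv.R]) := by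
    rw [hw, List.replicate_succ']
    simp
  have hz : (ze δ v).z ^ 2 < 1 + δ ^ 2 := by
    have h1 : |v.1| < 1 := hv
    have h2 : v.1 ^ 2 < 1 := by
      rw [← sq_abs]
      have := abs_nonneg v.1
      nlinarith
    change v.1 ^ 2 < 1 + δ ^ 2
    nlinarith [sq_nonneg δ]
  have hT2 : (tf d (j' + 1) (k' + 1) (ze δ v)) ^ 2 ≤ κ ^ 2 := by
    rw [← sq_abs]
    exact pow_le_pow_left₀ (abs_nonneg _) hT 2
  have h := (W571.Stu.rev δ (κ ^ 2) hδ (sq_nonneg κ) hκ2 (w ++ List.replicate k' Mv.R) (ze δ v)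
    (run (Wd d (j' + 1) ++ List.replicate (k' + 1) Mv.R) (ze δ v))
    (drun (Wd d (j' + 1) ++ List.replicate (k' + 1) Mv.R) (ze δ v) (fV (ze δ v)))
    ((hC δ).1 v hv) hz (by rw [hW]) (by rw [hW]) (by
      rw [run_append, run_Wd, run_rep]
      exact hT2)).1
  rw [drun_append, drun_Wd, run_Wd, drun_rep, dRk_y] at h
  change |Vy d (j' + 1) (ze δ v)| ≤ N0 δ (κ ^ 2) * |Vt d (j' + 1) (k' + 1) (ze δ v)| at h
  rw [Tf_eq, abs_dt hdt _ _ hv, abs_dt hdt _ _ hv, Vt_eq_Vy, ← mul_div_assoc]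
  refine div_le_div_of_nonneg_right ?_ (Real.sqrt_nonneg _)
  refine h.trans (mul_le_mul_of_nonneg_right ?_ (abs_nonneg _))
  have := le_abs_self (N0 δ (κ ^ 2))
  linarith

end Pool.Agent.H106.Tm
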